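import Pool.Agent.Helper338.TC.FW_X3

/-! # FW: the averages along windows only are Cauchy (part of MP_e53872_an)

`Pool.TC.FWx.fw` is the statement `Pool.TC.fw` of the interface. -/
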