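import Mathlib

open scoped ComplexConjugate InnerProductSpace
open Finset

namespace Pool.TC.FWx

/-! ## Finitely supported laws on a commutative monoid (convolution product) -/

/-- finitely supported weights on `G` with the convolution product -/
abbrev LG (G : Type) := AddMonoidAlgebra ℝ G

/-- expectation of `F` -/
noncomputable def EE {G : Type} {V : Type*} [AddCommGroup V] [Module ℝ V]
    (ρ : LG G) (F : G → V) : V :=
  ρ.coeff.sum (fun n w => w • F n)

/-- probability laws -/
def IsLaw {G : Type} (ρ : LG G) : Prop :=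
  (∀ n, 0 ≤ ρ.coeff n) ∧ EE ρ (fun _ => (1 : ℝ)) = 1

/-- `ρ` is `δ`-invariant under the shift by `e` (total variation) -/
def Inv {G : Type} [AddCommMonoid G] (ρ : LG G) (e : G) (δ : ℝ) : Prop :=
  ∀ Φ : G → ℝ, (∀ n, |Φ n| ≤ 1) → |EE ρ (fun n => Φ (n + e)) - EE ρ Φ| ≤ δ

/-- uniform law on `0, g, 2g, …, (n-1)g` -/
noncomputable def unif {G : Type} [AddCommMonoid G] (g : G) (n : ℕ) : LG G :=
  (n : ℝ)⁻¹ • ∑ i ∈ range n, AddMonoidAlgebra.single (i • g) (1 : ℝ)

end Pool.TC.FWx
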