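import Pool.Agent.Helper591.TC.Base
import Pool.Agent.Helper338.TC.LawDefs

open scoped ComplexConjugate InnerProductSpace

namespace Pool.TC.FWx

section psys_d
variable {A : Type} [CommRing A] [StarRing A] [Algebra ℂ A] [StarModule ℂ A] [PSys A]

/-- the four point function -/
noncomputable def CC (f : A) (h k : ℤ) : ℝ :=
  (PSys.E (f * PSys.tau (2 * h) (star f) * PSys.tau k (star f) * PSys.tau (k + 2 * h) f)).re

/-- the box energy -/
noncomputable def BB (ρ θ : LG ℤ) (f : A) (x y : ℤ) : ℝ :=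
  EE ρ fun r => EE ρ fun r' => EE θ fun t => EE θ fun t' => CC f (r' - r + x) (t' - t + y)

/-- row vector -/
noncomputable def WW (θ : LG ℤ) (f : A) (h : ℤ) : A :=
  EE θ (fun t => PSys.tau t (star f * PSys.tau (2 * h) f))

/-- column vector -/
noncomputable def GG (ρ : LG ℤ) (f : A) (k : ℤ) : A :=
  EE ρ (fun r => PSys.tau (2 * r) (star f * PSys.tau k f))

/-- the double recurrence average along a law -/
noncomputable def AA (ρ : LG ℤ) (f₁ f₂ : A) : A :=
  EE ρ (fun a => PSys.tau a f₁ * PSys.tau (2 * a) f₂)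

/-- translated average -/
noncomputable def vv (ρ : LG ℤ) (f₁ f₂ : A) (c : ℤ) : A :=
  AA ρ (PSys.tau c f₁) (PSys.tau (2 * c) f₂)

end psys_d

section path_d


/-- law of `3 r L_m`, `r` uniform on `[0, Hw m k)` -/
noncomputable def UL (L : ℕ → ℤ) (m k : ℕ) : LG ℤ := unif (3 * L m) (Hw m k)

/-- window law of the levels of `I` at the scale path `κ` -/
noncomputable def RL (L : ℕ → ℤ) (I : Finset ℕ) (κ : ℕ → ℕ) : LG ℤ := ∏ m ∈ I, UL L m (κ m)

/-- law of the scale path on the levels of `I`: independent, uniform on `{1, …, Q m}`; zero off `I` -/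
noncomputable def KL (I : Finset ℕ) : LG (ℕ → ℕ) :=
  ∏ m ∈ I, (AddMonoidAlgebra.single (Pi.single m 1) (1 : ℝ) * unif (Pi.single m 1) (Q m))

/-- `s` on `J`, zero elsewhere -/
def bump (J : Finset ℕ) (s : ℕ) : ℕ → ℕ := fun m => if m ∈ J then s else 0

end path_d

section top_d
variable {A : Type} [CommRing A] [StarRing A] [Algebra ℂ A] [StarModule ℂ A] [PSys A]

/-- box energy of the levels `[a, N)` at the path `κ` (small windows: path `κ - 1`) -/
noncomputable def eN (L : ℕ → ℤ) (a N : ℕ) (f : A) (κ : ℕ → ℕ) : ℝ :=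
  BB (RL L (Finset.Ico a N) κ) (RL L (Finset.Ico a N) (fun m => κ m - 1)) f 0 0

noncomputable def aN (L : ℕ → ℤ) (a N : ℕ) (f₁ f₂ : A) (κ : ℕ → ℕ) : ℝ :=
  ‖AA (RL L (Finset.Ico a N) κ) f₁ f₂‖ ^ 2

noncomputable def Ebar (L : ℕ → ℤ) (a : ℕ) (f : A) (N : ℕ) : ℝ :=
  EE (KL (Finset.Ico a N)) (eN L a N f)

noncomputable def abar (L : ℕ → ℤ) (a : ℕ) (f₁ f₂ : A) (N : ℕ) : ℝ :=
  EE (KL (Finset.Ico a N)) (aN L a N f₁ f₂)

noncomputable def Abar (L : ℕ → ℤ) (a : ℕ) (f₁ f₂ : A) (N : ℕ) : A :=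
  EE (KL (Finset.Ico a N)) (fun κ => AA (RL L (Finset.Ico a N) κ) f₁ f₂)

end top_d

end Pool.TC.FWx
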