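import Pool.Agent.Helper338.TC.LawDefs

open scoped ComplexConjugate InnerProductSpace
open Finset

namespace Pool.TC.FWx


section basic
variable {G : Type} {V W : Type*} [AddCommGroup V] [Module ℝ V] [AddCommGroup W] [Module ℝ W]

theorem EE_single (a : G) (F : G → V) : EE (AddMonoidAlgebra.single a (1 : ℝ)) F = F a := by
  unfold EE
  rw [AddMonoidAlgebra.coeff_single, Finsupp.sum_single_index (by simp), one_smul]

theorem EE_add_law (ρ σ : LG G) (F : G → V) : EE (ρ + σ) F = EE ρ F + EE σ F := by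
  unfold EE
  rw [AddMonoidAlgebra.coeff_add]
  exact Finsupp.sum_add_index' (by simp) (by intro a b c; rw [add_smul])

theorem EE_smul_law (c : ℝ) (ρ : LG G) (F : G → V) : EE (c • ρ) F = c • EE ρ F := by
  unfold EE
  rw [AddMonoidAlgebra.coeff_smul, Finsupp.sum_smul_index' (by simp), Finsupp.smul_sum]
  simp only [Finsupp.sum, smul_smul, smul_eq_mul]

theorem EE_zero_law (F : G → V) : EE (0 : LG G) F = 0 := by
  have := EE_smul_law (0 : ℝ) (0 : LG G) F
  simpa using this

theorem EE_sum_law {ι : Type*} (s : Finset ι) (ρ : ι → LG G) (F : G → V) :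
    EE (∑ i ∈ s, ρ i) F = ∑ i ∈ s, EE (ρ i) F := by
  classical
  induction s using Finset.induction_on with
  | empty => simpa using EE_zero_law F
  | insert a s ha ih => rw [Finset.sum_insert ha, Finset.sum_insert ha, EE_add_law, ih]

theorem EE_add (ρ : LG G) (F F' : G → V) : EE ρ (fun n => F n + F' n) = EE ρ F + EE ρ F' := by
  unfold EE
  simp only [Finsupp.sum, smul_add, Finset.sum_add_distrib]

theorem EE_sub (ρ : LG G) (F F' : G → V) : EE ρ (fun n => F n - F' n) = EE ρ F - EE ρ F' := by
  unfold EE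
  simp only [Finsupp.sum, smul_sub, Finset.sum_sub_distrib]

theorem EE_smul (ρ : LG G) (c : ℝ) (F : G → V) : EE ρ (fun n => c • F n) = c • EE ρ F := by
  unfold EE
  simp only [Finsupp.sum, Finset.smul_sum]
  refine Finset.sum_congr rfl fun n _ => ?_
  rw [smul_smul, smul_smul, mul_comm]

theorem EE_mul_left (ρ : LG G) (c : ℝ) (F : G → ℝ) : EE ρ (fun n => c * F n) = c * EE ρ F := by
  have := EE_smul ρ c F
  simpa only [smul_eq_mul] using this

theorem EE_map (T : V →ₗ[ℝ] W) (ρ : LG G) (F : G → V) :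
    EE ρ (fun n => T (F n)) = T (EE ρ F) := by
  unfold EE
  simp only [Finsupp.sum, map_sum, map_smul]

theorem EE_congr (ρ : LG G) (F F' : G → V) (h : ∀ n, ρ.coeff n ≠ 0 → F n = F' n) :
    EE ρ F = EE ρ F' := by
  unfold EE
  simp only [Finsupp.sum]
  refine Finset.sum_congr rfl fun n hn => ?_
  rw [h n (Finsupp.mem_support_iff.mp hn)]

theorem EE_comm {G' : Type} (ρ : LG G) (σ : LG G') (F : G → G' → V) :
    EE ρ (fun a => EE σ (fun b => F a b)) = EE σ (fun b => EE ρ (fun a => F a b)) := by
  unfold EE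
  simp only [Finsupp.sum, Finset.smul_sum]
  rw [Finset.sum_comm]
  refine Finset.sum_congr rfl fun b _ => Finset.sum_congr rfl fun a _ => ?_
  rw [smul_smul, smul_smul, mul_comm]

end basic

end Pool.TC.FWx
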