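import Pool.Agent.Helper338.TC.LawDefs
import Pool.Agent.Helper338.TC.FW_L1

open scoped ComplexConjugate InnerProductSpace
open Finset

namespace Pool.TC.FWx


section basic
variable {G : Type} {V W : Type*} [AddCommGroup V] [Module ℝ V] [AddCommGroup W] [Module ℝ W]

theorem EE_const {ρ : LG G} (h : IsLaw ρ) (v : V) : EE ρ (fun _ => v) = v := by
  have h1 : (ρ.coeff.sum (fun _ w => w)) = 1 := by
    have := h.2
    unfold EE at this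
    simpa using this
  unfold EE
  unfold Finsupp.sum at *
  rw [← Finset.sum_smul, h1, one_smul]

theorem EE_mono {ρ : LG G} (h : IsLaw ρ) (φ ψ : G → ℝ) (hle : ∀ n, ρ.coeff n ≠ 0 → φ n ≤ ψ n) :
    EE ρ φ ≤ EE ρ ψ := by
  unfold EE Finsupp.sum
  refine Finset.sum_le_sum (fun n hn => ?_)
  exact mul_le_mul_of_nonneg_left (hle n (Finsupp.mem_support_iff.1 hn)) (h.1 n)

theorem EE_le_of {ρ : LG G} (h : IsLaw ρ) (φ : G → ℝ) (C : ℝ)
    (hle : ∀ n, ρ.coeff n ≠ 0 → φ n ≤ C) : EE ρ φ ≤ C := by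
  have h1 := EE_mono h φ (fun _ => C) hle
  rwa [EE_const h] at h1

theorem le_EE_of {ρ : LG G} (h : IsLaw ρ) (φ : G → ℝ) (C : ℝ)
    (hle : ∀ n, ρ.coeff n ≠ 0 → C ≤ φ n) : C ≤ EE ρ φ := by
  have h1 := EE_mono h (fun _ => C) φ hle
  rwa [EE_const h] at h1

theorem EE_sq_le {ρ : LG G} (h : IsLaw ρ) (φ : G → ℝ) : (EE ρ φ) ^ 2 ≤ EE ρ (fun n => φ n ^ 2) := by
  have h0 : 0 ≤ EE ρ (fun n => (φ n - EE ρ φ) ^ 2) :=
    le_EE_of h _ 0 (fun n _ => sq_nonneg _)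
  have h1 : (fun n => (φ n - EE ρ φ) ^ 2) =
      fun n => (φ n ^ 2 + (-(2 * EE ρ φ)) * φ n) + (EE ρ φ) ^ 2 := by
    funext n; ring
  rw [h1, EE_add, EE_add, EE_mul_left, EE_const h] at h0
  nlinarith

theorem EE_sqrt_le {ρ : LG G} (h : IsLaw ρ) (φ : G → ℝ) (hφ : ∀ n, ρ.coeff n ≠ 0 → 0 ≤ φ n) :
    EE ρ (fun n => Real.sqrt (φ n)) ≤ Real.sqrt (EE ρ φ) := by
  have h1 := EE_sq_le h (fun n => Real.sqrt (φ n))
  have h2 : EE ρ (fun n => Real.sqrt (φ n) ^ 2) = EE ρ φ :=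
    EE_congr ρ _ _ (fun n hn => Real.sq_sqrt (hφ n hn))
  rw [h2] at h1
  exact (le_abs_self _).trans (Real.abs_le_sqrt h1)

theorem exists_coeff_ne {ρ : LG G} (h : IsLaw ρ) : ∃ n, ρ.coeff n ≠ 0 := by
  by_contra hc
  push Not at hc
  have h1 : EE ρ (fun _ => (1 : ℝ)) = 0 := by
    unfold EE Finsupp.sum
    exact Finset.sum_eq_zero (fun n _ => by simp [hc n])
  rw [h.2] at h1
  exact one_ne_zero h1

end basic

section normed
variable {G : Type} {V : Type*} [SeminormedAddCommGroup V] [NormedSpace ℝ V]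

theorem norm_EE_le {ρ : LG G} (h : IsLaw ρ) (F : G → V) : ‖EE ρ F‖ ≤ EE ρ (fun n => ‖F n‖) := by
  unfold EE Finsupp.sum
  refine (norm_sum_le _ _).trans (Finset.sum_le_sum (fun n _ => ?_))
  rw [norm_smul, Real.norm_of_nonneg (h.1 n)]
  simp [smul_eq_mul]

theorem norm_EE_le_of {ρ : LG G} (h : IsLaw ρ) (F : G → V) (C : ℝ)
    (hF : ∀ n, ρ.coeff n ≠ 0 → ‖F n‖ ≤ C) : ‖EE ρ F‖ ≤ C := by
  exact (norm_EE_le h F).trans (EE_le_of h _ C hF)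

theorem norm_EE_sq_le {ρ : LG G} (h : IsLaw ρ) (F : G → V) :
    ‖EE ρ F‖ ^ 2 ≤ EE ρ (fun n => ‖F n‖ ^ 2) := by
  exact (pow_le_pow_left₀ (norm_nonneg _) (norm_EE_le h F) 2).trans (EE_sq_le h _)

end normed

end Pool.TC.FWx
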