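import Pool.Agent.Helper338.TC.LawDefs
import Pool.Agent.Helper338.TC.FW_L1
import Pool.Agent.Helper338.TC.FW_L2

open scoped ComplexConjugate InnerProductSpace
open Finset

namespace Pool.TC.FWx


section mul
variable {G : Type} [AddCommMonoid G] {V : Type*} [AddCommGroup V] [Module ℝ V]

private theorem EE_zero_law_aux {G' : Type} {V' : Type*} [AddCommGroup V'] [Module ℝ V'] (F : G' → V') :
    EE (0 : LG G') F = 0 := by
  have h := EE_smul_law 0 (0 : LG G') F
  rw [zero_smul, zero_smul] at h
  exact h

private theorem EE_zero_fun_aux {G' : Type} {V' : Type*} [AddCommGroup V'] [Module ℝ V'] (ρ : LG G') :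
    EE ρ (fun _ => (0 : V')) = 0 := by
  unfold EE
  simp

private theorem single_smul_aux {G' : Type} (a : G') (r : ℝ) :
    (AddMonoidAlgebra.single a r : LG G') = r • AddMonoidAlgebra.single a (1 : ℝ) := by
  rw [AddMonoidAlgebra.smul_single, smul_eq_mul, mul_one]

private theorem EE_single_smul_aux {G' : Type} {V' : Type*} [AddCommGroup V'] [Module ℝ V']
    (a : G') (r : ℝ) (F : G' → V') :
    EE (AddMonoidAlgebra.single a r : LG G') F = r • F a := by
  rw [single_smul_aux, EE_smul_law, EE_single]

private theorem isLaw_single_aux (a : G) : IsLaw (AddMonoidAlgebra.single a (1 : ℝ)) := by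
  constructor
  · intro n
    rw [AddMonoidAlgebra.coeff_single]
    classical
    rw [Finsupp.single_apply]
    split_ifs <;> norm_num
  · rw [EE_single]

private theorem EE_unif_aux (g : G) (n : ℕ) (F : G → V) :
    EE (unif g n) F = (n : ℝ)⁻¹ • ∑ i ∈ range n, F (i • g) := by
  unfold unif
  rw [EE_smul_law, EE_sum_law]
  simp only [EE_single]

theorem EE_mul (ρ σ : LG G) (F : G → V) :
    EE (ρ * σ) F = EE ρ (fun a => EE σ (fun b => F (a + b))) := by
  induction ρ using AddMonoidAlgebra.induction_linear with
  | zero => rw [zero_mul, EE_zero_law_aux, EE_zero_law_aux]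
  | add f g hf hg => rw [add_mul, EE_add_law, EE_add_law, hf, hg]
  | single a r =>
    rw [EE_single_smul_aux]
    induction σ using AddMonoidAlgebra.induction_linear with
    | zero => rw [mul_zero, EE_zero_law_aux, EE_zero_law_aux, smul_zero]
    | add f g hf hg => rw [mul_add, EE_add_law, EE_add_law, hf, hg, smul_add]
    | single b s =>
      rw [AddMonoidAlgebra.single_mul_single, EE_single_smul_aux, EE_single_smul_aux, smul_smul]

theorem EE_one (F : G → V) : EE (1 : LG G) F = F 0 := by
  rw [AddMonoidAlgebra.one_def, EE_single]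

theorem isLaw_one : IsLaw (1 : LG G) := by
  rw [AddMonoidAlgebra.one_def]
  exact isLaw_single_aux 0

theorem isLaw_single (a : G) : IsLaw (AddMonoidAlgebra.single a (1 : ℝ)) := isLaw_single_aux a

theorem IsLaw.mul {ρ σ : LG G} (hρ : IsLaw ρ) (hσ : IsLaw σ) : IsLaw (ρ * σ) := by
  constructor
  · intro n
    classical
    rw [AddMonoidAlgebra.coeff_mul]
    refine Finset.sum_nonneg fun a _ => Finset.sum_nonneg fun b _ => ?_
    beta_reduce
    split_ifs
    · exact mul_nonneg (hρ.1 a) (hσ.1 b)
    · exact le_rfl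
  · rw [EE_mul, EE_const hσ, EE_const hρ]

theorem isLaw_prod {ι : Type*} (s : Finset ι) (ρ : ι → LG G) (h : ∀ i ∈ s, IsLaw (ρ i)) :
    IsLaw (∏ i ∈ s, ρ i) := by
  classical
  induction s using Finset.induction_on with
  | empty => rw [Finset.prod_empty]; exact isLaw_one
  | insert a s ha ih =>
    rw [Finset.prod_insert ha]
    exact (h a (Finset.mem_insert_self a s)).mul (ih fun i hi => h i (Finset.mem_insert_of_mem hi))

theorem isLaw_unif (g : G) (n : ℕ) (hn : 0 < n) : IsLaw (unif g n) := by
  constructor
  · intro m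
    unfold unif
    rw [AddMonoidAlgebra.coeff_smul_apply, AddMonoidAlgebra.coeff_sum, Finsupp.finsetSum_apply]
    refine mul_nonneg (by positivity) (Finset.sum_nonneg fun i _ => (isLaw_single (i • g)).1 m)
  · rw [EE_unif_aux]
    have : (n : ℝ) ≠ 0 := by positivity
    simp [this]

theorem EE_unif (g : G) (n : ℕ) (F : G → V) :
    EE (unif g n) F = (n : ℝ)⁻¹ • ∑ i ∈ range n, F (i • g) := EE_unif_aux g n F

end mul

end Pool.TC.FWx
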