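import Pool.Agent.Helper338.TC.LawDefs
import Pool.Agent.Helper338.TC.FW_L1
import Pool.Agent.Helper338.TC.FW_L2
import Pool.Agent.Helper338.TC.FW_L3

open scoped ComplexConjugate InnerProductSpace
open Finset

namespace Pool.TC.FWx


section mul
variable {G : Type} [AddCommMonoid G] {V : Type*} [AddCommGroup V] [Module ℝ V]

theorem supp_mul (ρ σ : LG G) (n : G) (h : (ρ * σ).coeff n ≠ 0) :
    ∃ a b, ρ.coeff a ≠ 0 ∧ σ.coeff b ≠ 0 ∧ n = a + b := by
  classical
  rw [AddMonoidAlgebra.coeff_mul, Finsupp.sum] at h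
  obtain ⟨a, ha, h2⟩ := Finset.exists_ne_zero_of_sum_ne_zero h
  rw [Finsupp.sum] at h2
  obtain ⟨b, hb, h3⟩ := Finset.exists_ne_zero_of_sum_ne_zero h2
  refine ⟨a, b, Finsupp.mem_support_iff.1 ha, Finsupp.mem_support_iff.1 hb, ?_⟩
  by_contra hn
  exact h3 (if_neg (fun e => hn e.symm))

theorem supp_single (a n : G) (h : (AddMonoidAlgebra.single a (1 : ℝ)).coeff n ≠ 0) : n = a := by
  classical
  rw [AddMonoidAlgebra.coeff_single, Finsupp.single_apply] at h
  by_contra hn
  exact h (if_neg (fun e => hn e.symm))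

theorem supp_one (n : G) (h : (1 : LG G).coeff n ≠ 0) : n = 0 := by
  rw [AddMonoidAlgebra.one_def] at h
  exact supp_single 0 n h

theorem supp_unif (g : G) (n : ℕ) (x : G) (h : (unif g n).coeff x ≠ 0) : ∃ i < n, x = i • g := by
  unfold unif at h
  rw [AddMonoidAlgebra.coeff_smul_apply, AddMonoidAlgebra.coeff_sum, Finsupp.finsetSum_apply] at h
  have h2 : ∑ i ∈ range n, (AddMonoidAlgebra.single (i • g) (1 : ℝ)).coeff x ≠ 0 := by
    intro e
    rw [e] at h
    simp at h
  obtain ⟨i, hi, h3⟩ := Finset.exists_ne_zero_of_sum_ne_zero h2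
  exact ⟨i, Finset.mem_range.1 hi, supp_single _ _ h3⟩

theorem supp_prod {ι : Type*} [DecidableEq ι] (s : Finset ι) (ρ : ι → LG G) (n : G)
    (h : (∏ i ∈ s, ρ i).coeff n ≠ 0) :
    ∃ a : ι → G, (∀ i ∈ s, (ρ i).coeff (a i) ≠ 0) ∧ n = ∑ i ∈ s, a i := by
  induction s using Finset.induction_on generalizing n with
  | empty =>
    rw [Finset.prod_empty] at h
    refine ⟨fun _ => 0, fun i hi => absurd hi (Finset.notMem_empty i), ?_⟩
    rw [Finset.sum_empty]
    exact supp_one n h
  | insert j s hj ih =>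
    rw [Finset.prod_insert hj] at h
    obtain ⟨a, b, ha, hb, hn⟩ := supp_mul _ _ _ h
    obtain ⟨c, hc, hb2⟩ := ih b hb
    refine ⟨Function.update c j a, ?_, ?_⟩
    · intro i hi
      rcases Finset.mem_insert.1 hi with h1 | h1
      · subst h1
        rw [Function.update_self]
        exact ha
      · have hij : i ≠ j := fun e => hj (e ▸ h1)
        rw [Function.update_of_ne hij]
        exact hc i h1
    · rw [Finset.sum_insert hj, Function.update_self, hn, hb2]
      congr 1
      apply Finset.sum_congr rfl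
      intro i hi
      have hij : i ≠ j := fun e => hj (e ▸ hi)
      rw [Function.update_of_ne hij]

end mul

end Pool.TC.FWx
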