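import Pool.Agent.Helper338.TC.LawDefs
import Pool.Agent.Helper338.TC.FW_L1
import Pool.Agent.Helper338.TC.FW_L2
import Pool.Agent.Helper338.TC.FW_L3
import Pool.Agent.Helper338.TC.FW_L4

open scoped ComplexConjugate InnerProductSpace
open Finset

namespace Pool.TC.FWx


section mul
variable {G : Type} [AddCommMonoid G] {V : Type*} [AddCommGroup V] [Module ℝ V]

theorem Inv.scale {ρ : LG G} {e : G} {δ : ℝ} (h : Inv ρ e δ) (C : ℝ) (hC : 0 ≤ C) (Φ : G → ℝ)
    (hΦ : ∀ n, |Φ n| ≤ C) : |EE ρ (fun n => Φ (n + e)) - EE ρ Φ| ≤ C * δ := by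
  rcases hC.eq_or_lt with rfl | hC
  · have h0 : ∀ n, Φ n = 0 := fun n => abs_nonpos_iff.mp (hΦ n)
    have e1 : (fun n => Φ (n + e)) = Φ := by funext n; rw [h0, h0]
    rw [e1]
    simp
  · have h1 := h (fun n => C⁻¹ * Φ n) (fun n => by
      rw [abs_mul, abs_of_pos (inv_pos.mpr hC), inv_mul_le_iff₀ hC, mul_one]
      exact hΦ n)
    rw [EE_mul_left ρ C⁻¹ (fun n => Φ (n + e)), EE_mul_left, ← mul_sub, abs_mul,
      abs_of_pos (inv_pos.mpr hC), inv_mul_le_iff₀ hC] at h1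
    exact h1

theorem inv_zero (ρ : LG G) : Inv ρ 0 0 := by
  intro Φ _
  simp

theorem Inv.nonneg {ρ : LG G} {e : G} {δ : ℝ} (h : Inv ρ e δ) : 0 ≤ δ := by
  exact (abs_nonneg _).trans (h (fun _ => 0) (by simp))

theorem Inv.mono {ρ : LG G} {e : G} {δ δ' : ℝ} (h : Inv ρ e δ) (hd : δ ≤ δ') : Inv ρ e δ' := by
  exact fun Φ hΦ => (h Φ hΦ).trans hd

theorem Inv.mul_left {ρ σ : LG G} {e : G} {δ : ℝ} (h : Inv ρ e δ) (hσ : IsLaw σ) :
    Inv (σ * ρ) e δ := by
  intro Φ hΦ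
  rw [EE_mul, EE_mul, ← EE_sub, ← Real.norm_eq_abs]
  refine norm_EE_le_of hσ _ δ fun a _ => ?_
  rw [Real.norm_eq_abs]
  have h1 := h (fun b => Φ (a + b)) (fun b => hΦ _)
  simpa only [add_assoc] using h1

theorem Inv.mul_right {ρ σ : LG G} {e : G} {δ : ℝ} (h : Inv ρ e δ) (hσ : IsLaw σ) :
    Inv (ρ * σ) e δ := by
  rw [mul_comm]
  exact h.mul_left hσ

theorem Inv.add {ρ : LG G} {e e' : G} {δ δ' : ℝ} (h : Inv ρ e δ) (h' : Inv ρ e' δ') :
    Inv ρ (e + e') (δ + δ') := by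
  intro Φ hΦ
  have h1 := h (fun n => Φ (n + e')) (fun n => hΦ _)
  have h2 := h' Φ hΦ
  have e1 : (fun n => Φ (n + (e + e'))) = fun n => Φ (n + e + e') := by
    funext n; rw [add_assoc]
  rw [e1]
  calc |EE ρ (fun n => Φ (n + e + e')) - EE ρ Φ|
      = |(EE ρ (fun n => Φ (n + e + e')) - EE ρ (fun n => Φ (n + e'))) +
          (EE ρ (fun n => Φ (n + e')) - EE ρ Φ)| := by ring_nf
    _ ≤ |EE ρ (fun n => Φ (n + e + e')) - EE ρ (fun n => Φ (n + e'))| +
          |EE ρ (fun n => Φ (n + e')) - EE ρ Φ| := abs_add_le _ _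
    _ ≤ δ + δ' := add_le_add h1 h2

theorem inv_prod {ι : Type*} [DecidableEq ι] (s : Finset ι) (ρ : ι → LG G) (e : ι → G) (δ : ι → ℝ)
    (hl : ∀ i ∈ s, IsLaw (ρ i)) (h : ∀ i ∈ s, Inv (ρ i) (e i) (δ i)) :
    Inv (∏ i ∈ s, ρ i) (∑ i ∈ s, e i) (∑ i ∈ s, δ i) := by
  induction s using Finset.induction_on with
  | empty =>
    rw [Finset.prod_empty, Finset.sum_empty, Finset.sum_empty]
    exact inv_zero _
  | insert a s ha ih =>
    rw [Finset.prod_insert ha, Finset.sum_insert ha, Finset.sum_insert ha]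
    have hl' : ∀ i ∈ s, IsLaw (ρ i) := fun i hi => hl i (Finset.mem_insert_of_mem hi)
    have h1 := ih hl' (fun i hi => h i (Finset.mem_insert_of_mem hi))
    exact ((h a (Finset.mem_insert_self _ _)).mul_right (isLaw_prod s ρ hl')).add
      (h1.mul_left (hl a (Finset.mem_insert_self _ _)))

theorem inv_unif (g : G) (n c : ℕ) (hn : 0 < n) : Inv (unif g n) (c • g) (2 * c / n) := by
  have hnR : (0 : ℝ) < n := by exact_mod_cast hn
  have hone : Inv (unif g n) g (2 / n) := by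
    intro Φ hΦ
    rw [EE_unif, EE_unif, ← smul_sub, ← Finset.sum_sub_distrib, smul_eq_mul, abs_mul,
      abs_of_pos (inv_pos.mpr hnR)]
    have e1 : ∑ i ∈ range n, (Φ (i • g + g) - Φ (i • g)) = Φ (n • g) - Φ (0 • g) := by
      rw [← Finset.sum_range_sub (fun i : ℕ => Φ (i • g)) n]
      refine Finset.sum_congr rfl fun i _ => ?_
      simp only [succ_nsmul]
    rw [e1]
    have h1 := hΦ (n • g)
    have h2 := hΦ (0 • g)
    rw [abs_le] at h1 h2
    have h3 : |Φ (n • g) - Φ (0 • g)| ≤ 2 := by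
      rw [abs_le]; constructor <;> linarith
    rw [div_eq_inv_mul]
    exact mul_le_mul_of_nonneg_left h3 (inv_pos.mpr hnR).le
  induction c with
  | zero =>
    rw [zero_smul]
    simpa using inv_zero (unif g n)
  | succ c ih =>
    have h1 := ih.add hone
    rw [succ_nsmul]
    have e1 : (2 * ((c + 1 : ℕ) : ℝ) / n) = 2 * (c : ℝ) / n + 2 / n := by
      push_cast; ring
    rw [e1]
    exact h1

end mul

end Pool.TC.FWx
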