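import Pool.Agent.Helper338.TC.Defs
import Pool.Agent.Helper338.TC.FW_L1
import Pool.Agent.Helper338.TC.FW_L2
import Pool.Agent.Helper338.TC.FW_L3
import Pool.Agent.Helper338.TC.FW_L4
import Pool.Agent.Helper338.TC.FW_L5

open scoped ComplexConjugate InnerProductSpace

namespace Pool.TC.FWx


section key


/-- average over differences -/
private noncomputable def avK (ρ : LG ℤ) (F : ℤ → ℝ) : ℝ := EE ρ (fun p => EE ρ (fun p' => F (p' - p)))

private theorem avK_mono {ρ : LG ℤ} (h : IsLaw ρ) {F G : ℤ → ℝ} (hle : ∀ u, F u ≤ G u) :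
    avK ρ F ≤ avK ρ G :=
  EE_mono h _ _ fun _ _ => EE_mono h _ _ fun _ _ => hle _

private theorem avK_add (ρ : LG ℤ) (F G : ℤ → ℝ) :
    avK ρ (fun u => F u + G u) = avK ρ F + avK ρ G := by
  unfold avK
  rw [← EE_add]
  congr 1
  funext p
  rw [← EE_add]

private theorem avK_mul (ρ : LG ℤ) (c : ℝ) (F : ℤ → ℝ) :
    avK ρ (fun u => c * F u) = c * avK ρ F := by
  unfold avK
  rw [← EE_mul_left]
  congr 1
  funext p
  rw [← EE_mul_left]

private theorem avK_const {ρ : LG ℤ} (h : IsLaw ρ) (c : ℝ) : avK ρ (fun _ => c) = c := by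
  unfold avK
  rw [EE_const h, EE_const h]

private theorem avK_comm (ρ σ : LG ℤ) (F : ℤ → ℤ → ℝ) :
    avK ρ (fun u => avK σ (fun v => F u v)) = avK σ (fun v => avK ρ (fun u => F u v)) := by
  unfold avK
  calc EE ρ (fun p => EE ρ fun p' => EE σ fun q => EE σ fun q' => F (p' - p) (q' - q))
      = EE ρ (fun p => EE σ fun q => EE ρ fun p' => EE σ fun q' => F (p' - p) (q' - q)) := by
        congr 1
        funext p
        rw [EE_comm]
    _ = EE σ (fun q => EE ρ fun p => EE ρ fun p' => EE σ fun q' => F (p' - p) (q' - q)) := by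
        rw [EE_comm]
    _ = EE σ (fun q => EE ρ fun p => EE σ fun q' => EE ρ fun p' => F (p' - p) (q' - q)) := by
        congr 1
        funext q
        congr 1
        funext p
        rw [EE_comm]
    _ = EE σ (fun q => EE σ fun q' => EE ρ fun p => EE ρ fun p' => F (p' - p) (q' - q)) := by
        congr 1
        funext q
        rw [EE_comm]

private theorem avK_shift {ρ : LG ℤ} (h : IsLaw ρ) {x : ℤ} {δ : ℝ} (hx : Inv ρ x δ) (C : ℝ)
    (hC : 0 ≤ C) (F : ℤ → ℝ) (hF : ∀ u, |F u| ≤ C) :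
    avK ρ (fun u => F (x + u)) ≤ avK ρ F + C * δ := by
  have h1 : ∀ p, EE ρ (fun p' => F (x + (p' - p))) ≤ EE ρ (fun p' => F (p' - p)) + C * δ := by
    intro p
    have h2 := hx.scale C hC (fun p' => F (p' - p)) (fun n => hF _)
    have h3 : (fun n => F (n + x - p)) = fun p' => F (x + (p' - p)) := by
      funext n
      congr 1
      ring
    rw [h3] at h2
    have := (abs_le.1 h2).2
    linarith
  calc avK ρ (fun u => F (x + u)) ≤ EE ρ (fun p => EE ρ (fun p' => F (p' - p)) + C * δ) :=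
        EE_mono h _ _ fun p _ => h1 p
    _ = avK ρ F + C * δ := by
        rw [EE_add, EE_const h]
        rfl

/-- a doubly positive definite kernel with small loss is almost invariant in the second variable -/
theorem key_kernel (b : ℤ → ℤ → ℝ) (hb : ∀ x y, |b x y| ≤ 1)
    (hC0 : ∀ x y, b x y ≤ b 0 y)
    (hC : ∀ x u y, b 0 y - b x y ≤ 2 * (b 0 y - b (x + u) y) + 2 * (b 0 y - b u y))
    (hA0 : ∀ x y, b x y ≤ b x 0)
    (hA : ∀ x y v, b x 0 - b x y ≤ 2 * (b x 0 - b x (y + v)) + 2 * (b x 0 - b x v))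
    (P₃ P₂ : LG ℤ) (h₃ : IsLaw P₃) (h₂ : IsLaw P₂) (δ lam : ℝ)
    (hlam : EE P₃ (fun p => EE P₃ fun p' => EE P₂ fun q => EE P₂ fun q' =>
      b 0 0 - b (p' - p) (q' - q)) = lam)
    (x e : ℤ) (hx : Inv P₃ x δ) (he : Inv P₂ e δ) :
    2 * (b x 0 - b x e) ≤ 40 * (lam + δ) := by
  have hlam' : avK P₃ (fun u => avK P₂ (fun v => b 0 0 - b u v)) = lam := hlam
  -- step 1
  have s1 : ∀ y, b 0 y - b x y ≤ 4 * avK P₃ (fun u => b 0 0 - b u y) + 4 * δ := by
    intro y
    have hbd : ∀ u, |b 0 y - b u y| ≤ 2 := by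
      intro u
      have h1 := abs_le.1 (hb 0 y)
      have h2 := abs_le.1 (hb u y)
      rw [abs_le]
      constructor <;> linarith [h1.1, h1.2, h2.1, h2.2]
    have h1 : b 0 y - b x y ≤ avK P₃ (fun u => 2 * (b 0 y - b (x + u) y) + 2 * (b 0 y - b u y)) := by
      calc b 0 y - b x y = avK P₃ (fun _ => b 0 y - b x y) := (avK_const h₃ _).symm
        _ ≤ _ := avK_mono h₃ fun u => hC x u y
    rw [avK_add, avK_mul, avK_mul] at h1
    have h2 := avK_shift h₃ hx 2 (by norm_num) (fun u => b 0 y - b u y) hbd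
    have h3 : avK P₃ (fun u => b 0 y - b u y) ≤ avK P₃ (fun u => b 0 0 - b u y) :=
      avK_mono h₃ fun u => by linarith [hA0 0 y]
    linarith
  have s1' : avK P₂ (fun v => b 0 v - b x v) ≤ 4 * lam + 4 * δ := by
    calc avK P₂ (fun v => b 0 v - b x v)
        ≤ avK P₂ (fun v => 4 * avK P₃ (fun u => b 0 0 - b u v) + 4 * δ) := avK_mono h₂ s1
      _ = 4 * lam + 4 * δ := by
        rw [avK_add, avK_mul, avK_const h₂, ← avK_comm, hlam']
  -- step 2
  have s2 : avK P₂ (fun v => b 0 0 - b 0 v) ≤ lam := by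
    calc avK P₂ (fun v => b 0 0 - b 0 v)
        = avK P₃ (fun _ => avK P₂ (fun v => b 0 0 - b 0 v)) := (avK_const h₃ _).symm
      _ ≤ avK P₃ (fun u => avK P₂ (fun v => b 0 0 - b u v)) :=
        avK_mono h₃ fun u => avK_mono h₂ fun v => by linarith [hC0 u v]
      _ = lam := hlam'
  have s3 : avK P₂ (fun v => b 0 0 - b x v) ≤ 5 * lam + 4 * δ := by
    have : avK P₂ (fun v => b 0 0 - b x v) =
        avK P₂ (fun v => b 0 v - b x v) + avK P₂ (fun v => b 0 0 - b 0 v) := by
      rw [← avK_add]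
      congr 1
      funext v
      ring
    rw [this]
    linarith
  -- step 3
  have hbd : ∀ v, |b x 0 - b x v| ≤ 2 := by
    intro v
    have h1 := abs_le.1 (hb x 0)
    have h2 := abs_le.1 (hb x v)
    rw [abs_le]
    constructor <;> linarith [h1.1, h1.2, h2.1, h2.2]
  have h1 : b x 0 - b x e ≤ avK P₂ (fun v => 2 * (b x 0 - b x (e + v)) + 2 * (b x 0 - b x v)) := by
    calc b x 0 - b x e = avK P₂ (fun _ => b x 0 - b x e) := (avK_const h₂ _).symm
      _ ≤ _ := avK_mono h₂ fun v => hA x e v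
  rw [avK_add, avK_mul, avK_mul] at h1
  have h2 := avK_shift h₂ he 2 (by norm_num) (fun v => b x 0 - b x v) hbd
  have h3 : avK P₂ (fun v => b x 0 - b x v) ≤ avK P₂ (fun v => b 0 0 - b x v) :=
    avK_mono h₂ fun v => by linarith [hC0 x 0]
  linarith


end key

end Pool.TC.FWx
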