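import Pool.Agent.Helper338.TC.Defs
import Pool.Agent.Helper338.TC.FW_L1
import Pool.Agent.Helper338.TC.FW_L2
import Pool.Agent.Helper338.TC.FW_L3
import Pool.Agent.Helper338.TC.FW_L4
import Pool.Agent.Helper338.TC.FW_L5
import Pool.Agent.Helper338.TC.FW_K1

open scoped ComplexConjugate InnerProductSpace

namespace Pool.TC.FWx


section key


/-- variance lemma: if the Gram matrix of `v` is almost stationary and averaging loses little norm,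
then the short averages are close to `v 0` -/
theorem var_lemma {H : Type*} [SeminormedAddCommGroup H] [InnerProductSpace ℂ H] (v : ℤ → H)
    (hv : ∀ c, ‖v c‖ ≤ 1) (R₀ R₁ : LG ℤ) (h₀ : IsLaw R₀) (h₁ : IsLaw R₁) (δ ω : ℝ)
    (hinv : ∀ x, R₀.coeff x ≠ 0 → Inv R₁ x ω)
    (hn : ∀ x c, (x = 0 ∨ R₀.coeff x ≠ 0) → R₁.coeff c ≠ 0 → |‖v (x + c)‖ ^ 2 - ‖v x‖ ^ 2| ≤ δ)
    (hi : ∀ x c, R₀.coeff x ≠ 0 → R₁.coeff c ≠ 0 →
      |(⟪v c, v (x + c)⟫_ℂ).re - (⟪v 0, v x⟫_ℂ).re| ≤ δ) :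
    ‖EE R₁ v‖ ^ 2 ≤ ‖v 0‖ ^ 2 + δ ∧
    ‖EE R₀ v - v 0‖ ^ 2 ≤ 4 * (‖v 0‖ ^ 2 - ‖EE R₁ v‖ ^ 2) + 8 * δ + 8 * ω := by
  obtain ⟨V, hV⟩ : ∃ V : H, V = EE R₁ v := ⟨_, rfl⟩
  rw [← hV]
  have hn0 : ∀ c, R₁.coeff c ≠ 0 → |‖v c‖ ^ 2 - ‖v 0‖ ^ 2| ≤ δ := by
    intro c hc
    have := hn 0 c (Or.inl rfl) hc
    rwa [zero_add] at this
  have hsq : EE R₁ (fun c => ‖v c‖ ^ 2) ≤ ‖v 0‖ ^ 2 + δ := by
    apply EE_le_of h₁
    intro c hc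
    have := abs_le.1 (hn0 c hc)
    linarith [this.2]
  have hpart1 : ‖V‖ ^ 2 ≤ ‖v 0‖ ^ 2 + δ := by
    rw [hV]
    exact (norm_EE_sq_le h₁ v).trans hsq
  refine ⟨hpart1, ?_⟩
  have hV1 : ‖V‖ ≤ 1 := by
    rw [hV]
    exact norm_EE_le_of h₁ v 1 (fun c _ => hv c)
  -- the variance
  let T : H →ₗ[ℝ] ℝ :=
    { toFun := fun w => (⟪V, w⟫_ℂ).re
      map_add' := fun a b => by rw [inner_add_right, Complex.add_re]
      map_smul' := fun r w => by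
        have h1 : (r • w : H) = ((r : ℂ)) • w := RCLike.real_smul_eq_coe_smul (K := ℂ) r w
        rw [h1, inner_smul_right, Complex.re_ofReal_mul]
        rfl }
  have hT : EE R₁ (fun c => (⟪V, v c⟫_ℂ).re) = ‖V‖ ^ 2 := by
    have h2 := EE_map T R₁ v
    have h3 : T (EE R₁ v) = (⟪V, V⟫_ℂ).re := by rw [← hV]; rfl
    rw [h3] at h2
    have h4 : (⟪V, V⟫_ℂ).re = ‖V‖ ^ 2 := inner_self_eq_norm_sq (𝕜 := ℂ) V
    rw [h4] at h2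
    exact h2
  have hexp : ∀ c, ‖v c - V‖ ^ 2 = ‖v c‖ ^ 2 - 2 * (⟪V, v c⟫_ℂ).re + ‖V‖ ^ 2 := by
    intro c
    have h5 := norm_sub_sq (𝕜 := ℂ) (v c) V
    rw [h5, inner_re_symm (𝕜 := ℂ)]
    rfl
  have hVar : EE R₁ (fun c => ‖v c - V‖ ^ 2) = EE R₁ (fun c => ‖v c‖ ^ 2) - ‖V‖ ^ 2 := by
    have h6 : (fun c => ‖v c - V‖ ^ 2) = fun c => (‖v c‖ ^ 2 - 2 * (⟪V, v c⟫_ℂ).re) + ‖V‖ ^ 2 :=
      funext hexp
    rw [h6, EE_add, EE_sub, EE_mul_left, hT, EE_const h₁]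
    ring
  have hbd : ∀ c, |‖v c - V‖ ^ 2| ≤ 4 := by
    intro c
    rw [abs_of_nonneg (by positivity)]
    have h7 : ‖v c - V‖ ≤ 2 := (norm_sub_le _ _).trans (by linarith [hv c])
    nlinarith [norm_nonneg (v c - V)]
  have hpt : ∀ x, R₀.coeff x ≠ 0 →
      ‖v x - v 0‖ ^ 2 ≤ 4 * (‖v 0‖ ^ 2 - ‖V‖ ^ 2) + 8 * δ + 8 * ω := by
    intro x hx
    have hsc := (hinv x hx).scale 4 (by norm_num) (fun c => ‖v c - V‖ ^ 2) hbd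
    have hc1 : ‖v x - v 0‖ ^ 2 - 4 * δ ≤
        EE R₁ (fun c => 2 * ‖v (c + x) - V‖ ^ 2 + 2 * ‖v c - V‖ ^ 2) := by
      apply le_EE_of h₁
      intro c hc
      have e1 : ‖v (x + c) - v c‖ ^ 2 = ‖v (x + c)‖ ^ 2 - 2 * (⟪v c, v (x + c)⟫_ℂ).re + ‖v c‖ ^ 2 := by
        have h5 := norm_sub_sq (𝕜 := ℂ) (v (x + c)) (v c)
        rw [h5, inner_re_symm (𝕜 := ℂ)]
        rfl
      have e2 : ‖v x - v 0‖ ^ 2 = ‖v x‖ ^ 2 - 2 * (⟪v 0, v x⟫_ℂ).re + ‖v 0‖ ^ 2 := by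
        have h5 := norm_sub_sq (𝕜 := ℂ) (v x) (v 0)
        rw [h5, inner_re_symm (𝕜 := ℂ)]
        rfl
      have a1 := abs_le.1 (hn x c (Or.inr hx) hc)
      have a2 := abs_le.1 (hn0 c hc)
      have a3 := abs_le.1 (hi x c hx hc)
      have e3 : ‖v (x + c) - v c‖ ^ 2 ≤ 2 * ‖v (c + x) - V‖ ^ 2 + 2 * ‖v c - V‖ ^ 2 := by
        have h8 : v (x + c) - v c = (v (c + x) - V) - (v c - V) := by
          rw [add_comm x c]; abel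
        have h9 : ‖v (x + c) - v c‖ ≤ ‖v (c + x) - V‖ + ‖v c - V‖ := by
          rw [h8]; exact norm_sub_le _ _
        nlinarith [norm_nonneg (v (x + c) - v c), norm_nonneg (v (c + x) - V), norm_nonneg (v c - V),
          sq_nonneg (‖v (c + x) - V‖ - ‖v c - V‖)]
      linarith [a1.1, a1.2, a2.1, a2.2, a3.1, a3.2]
    rw [EE_add, EE_mul_left, EE_mul_left] at hc1
    have a4 := abs_le.1 hsc
    linarith [a4.2]
  have hfin : EE R₀ v - v 0 = EE R₀ (fun x => v x - v 0) := by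
    rw [EE_sub, EE_const h₀]
  rw [hfin]
  refine (norm_EE_sq_le h₀ _).trans ?_
  exact EE_le_of h₀ _ _ hpt

end key

end Pool.TC.FWx
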