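import Pool.Agent.Helper338.TC.Defs
import Pool.Agent.Helper338.TC.FW_L1
import Pool.Agent.Helper338.TC.FW_L2
import Pool.Agent.Helper338.TC.FW_L3
import Pool.Agent.Helper338.TC.FW_L4
import Pool.Agent.Helper338.TC.FW_L5
import Pool.Agent.Helper338.TC.FW_K1
import Pool.Agent.Helper338.TC.FW_K2

open scoped ComplexConjugate InnerProductSpace

namespace Pool.TC.FWx


section key


private theorem real_cauchy_aux (f : ℕ → ℝ) (n₀ : ℕ) (c ε B : ℝ) (hε : 0 < ε) (hB : ∀ n, B ≤ f n)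
    (h : ∀ N ≥ n₀, ∀ N' ≥ N, f N' ≤ f N + c) :
    ∃ n₁ ≥ n₀, ∀ N ≥ n₁, ∀ N' ≥ N, f N - f N' ≤ c + ε := by
  have hne : (f '' Set.Ici n₀).Nonempty := ⟨f n₀, n₀, Set.mem_Ici.mpr le_rfl, rfl⟩
  have hbd : BddBelow (f '' Set.Ici n₀) := by
    refine ⟨B, ?_⟩
    rintro _ ⟨n, _, rfl⟩
    exact hB n
  obtain ⟨_, ⟨n₁, hn₁, rfl⟩, hlt⟩ := Real.lt_sInf_add_pos hne hε
  refine ⟨n₁, hn₁, fun N hN N' hN' => ?_⟩
  have h4 := h n₁ hn₁ N hN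
  have h5 : sInf (f '' Set.Ici n₀) ≤ f N' :=
    csInf_le hbd ⟨N', le_trans (le_trans hn₁ hN) hN', rfl⟩
  linarith

/-- real analysis of the three inequalities of a step -/
theorem real_cauchy (e a : ℕ → ℝ) (d : ℕ → ℕ → ℝ) (m₁ : ℕ) (p : ℝ) (hp : 0 < p)
    (he : ∀ n, |e n| ≤ 1) (ha : ∀ n, 0 ≤ a n ∧ a n ≤ 1)
    (h1 : ∀ N ≥ m₁, ∀ N' ≥ N, 0 ≤ e N - e N' + 6 * (1 / 4 : ℝ) ^ N)
    (h2 : ∀ N ≥ m₁, ∀ N' ≥ N, a N' ≤ a N +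
      (Real.sqrt (40 * (e N - e N' + 8 * (1 / 4 : ℝ) ^ N)) + 8 * p) + 2 * (1 / 4 : ℝ) ^ N)
    (h3 : ∀ N ≥ m₁, ∀ N' ≥ N, d N N' ≤ 4 * (a N - a N' + 2 * (1 / 4 : ℝ) ^ N) +
      8 * (Real.sqrt (40 * (e N - e N' + 8 * (1 / 4 : ℝ) ^ N)) + 8 * p) + 16 * (1 / 4 : ℝ) ^ N) :
    ∃ N₀ ≥ m₁, ∀ N ≥ N₀, ∀ N' ≥ N, d N N' ≤ 128 * p := by
  have hmin : 0 < min (p ^ 2 / 1120) (p / 2) := lt_min (by positivity) (by positivity)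
  obtain ⟨n, hn⟩ := exists_pow_lt_of_lt_one hmin (by norm_num : (1 / 4 : ℝ) < 1)
  have hq : ∀ N ≥ max n m₁, (1 / 4 : ℝ) ^ N ≤ (1 / 4 : ℝ) ^ (max n m₁) := fun N hN =>
    pow_le_pow_of_le_one (by norm_num) (by norm_num) hN
  have hq0 : (1 / 4 : ℝ) ^ (max n m₁) ≤ (1 / 4 : ℝ) ^ n :=
    pow_le_pow_of_le_one (by norm_num) (by norm_num) (le_max_left _ _)
  have hq1 : (1 / 4 : ℝ) ^ (max n m₁) < p ^ 2 / 1120 := lt_of_le_of_lt hq0 (lt_of_lt_of_le hn (min_le_left _ _))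
  have hq2 : (1 / 4 : ℝ) ^ (max n m₁) < p / 2 := lt_of_le_of_lt hq0 (lt_of_lt_of_le hn (min_le_right _ _))
  have hA : ∀ N ≥ max n m₁, ∀ N' ≥ N, e N' ≤ e N + 6 * (1 / 4 : ℝ) ^ (max n m₁) := by
    intro N hN N' hN'
    have h4 := h1 N (le_trans (le_max_right _ _) hN) N' hN'
    have h5 := hq N hN
    linarith
  obtain ⟨n₂, hn₂, hE⟩ := real_cauchy_aux e (max n m₁) _ (p ^ 2 / 80) (-1) (by positivity)
    (fun n => (abs_le.mp (he n)).1) hA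
  have hsq : ∀ N ≥ n₂, ∀ N' ≥ N,
      Real.sqrt (40 * (e N - e N' + 8 * (1 / 4 : ℝ) ^ N)) ≤ p := by
    intro N hN N' hN'
    rw [Real.sqrt_le_left hp.le]
    have h4 := hE N hN N' hN'
    have h5 := hq N (le_trans hn₂ hN)
    linarith
  have hm : ∀ N ≥ n₂, m₁ ≤ N := fun N hN => le_trans (le_max_right _ _) (le_trans hn₂ hN)
  have hB : ∀ N ≥ n₂, ∀ N' ≥ N, a N' ≤ a N + 10 * p := by
    intro N hN N' hN'
    have h4 := h2 N (hm N hN) N' hN'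
    have h5 := hsq N hN N' hN'
    have h6 := hq N (le_trans hn₂ hN)
    linarith
  obtain ⟨n₃, hn₃, hC⟩ := real_cauchy_aux a n₂ _ p 0 hp (fun n => (ha n).1) hB
  refine ⟨n₃, hm n₃ hn₃, fun N hN N' hN' => ?_⟩
  have hN2 : n₂ ≤ N := le_trans hn₃ hN
  have h4 := h3 N (hm N hN2) N' hN'
  have h5 := hC N hN N' hN'
  have h6 := hsq N hN2 N' hN'
  have h7 := hq N (le_trans hn₂ hN2)
  linarith

end key

end Pool.TC.FWx
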