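import Pool.Agent.Helper338.TC.Defs
import Pool.Agent.Helper338.TC.FW_L1
import Pool.Agent.Helper338.TC.FW_L2
import Pool.Agent.Helper338.TC.FW_L3
import Pool.Agent.Helper338.TC.FW_L4
import Pool.Agent.Helper338.TC.FW_L5
import Pool.Agent.Helper338.TC.FW_K1
import Pool.Agent.Helper338.TC.FW_K2
import Pool.Agent.Helper338.TC.FW_K3

open scoped ComplexConjugate InnerProductSpace

namespace Pool.TC.FWx


section psys
variable {A : Type} [CommRing A] [StarRing A] [Algebra ℂ A] [StarModule ℂ A] [PSys A]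

theorem inner_tau (n : ℤ) (a b : A) : ⟪PSys.tau n a, PSys.tau n b⟫_ℂ = ⟪a, b⟫_ℂ := by
  rw [inner_def, inner_def, ← map_star, ← map_mul, PSys.E_tau]

theorem norm_tau (n : ℤ) (a : A) : ‖PSys.tau n a‖ = ‖a‖ := by
  have h : ‖PSys.tau n a‖ ^ 2 = ‖a‖ ^ 2 := by
    rw [norm_sq_def, norm_sq_def, ← map_star, ← map_mul, PSys.E_tau]
  exact (pow_left_inj₀ (norm_nonneg _) (norm_nonneg _) two_ne_zero).mp h

theorem norm_le_one {a : A} (h : a ∈ (PSys.ball : Set A)) : ‖a‖ ≤ 1 := by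
  have h1 := PSys.ball_le a h 1
  rw [mul_one, star_one, one_mul, PSys.E_one, ← norm_sq_def] at h1
  have h2 := norm_nonneg a
  simp only [Complex.one_re] at h1
  nlinarith

/-- `tau n` commutes with expectations -/
theorem tau_EE (n : ℤ) (ρ : LG ℤ) (F : ℤ → A) :
    PSys.tau n (EE ρ F) = EE ρ (fun r => PSys.tau n (F r)) := by
  exact (EE_map (((PSys.tau n : A →⋆ₐ[ℂ] A).toAlgHom.toLinearMap).restrictScalars ℝ) ρ F).symm

end psys

end Pool.TC.FWx
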