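import Pool.Agent.Helper338.TC.Defs
import Pool.Agent.Helper338.TC.FW_L1
import Pool.Agent.Helper338.TC.FW_L2
import Pool.Agent.Helper338.TC.FW_L3
import Pool.Agent.Helper338.TC.FW_L4
import Pool.Agent.Helper338.TC.FW_L5
import Pool.Agent.Helper338.TC.FW_K1
import Pool.Agent.Helper338.TC.FW_K2
import Pool.Agent.Helper338.TC.FW_K3
import Pool.Agent.Helper338.TC.FW_P1

open scoped ComplexConjugate InnerProductSpace

namespace Pool.TC.FWx


section psys
variable {A : Type} [CommRing A] [StarRing A] [Algebra ℂ A] [StarModule ℂ A] [PSys A]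

private theorem aux1_19787 (a b : A) (s t y : ℤ) :
    ⟪PSys.tau t a, PSys.tau y (PSys.tau s b)⟫_ℂ = PSys.E (star a * PSys.tau (s - t + y) b) := by
  have h : PSys.tau y (PSys.tau s b) = PSys.tau t (PSys.tau (s - t + y) b) := by
    have e : t + (s - t + y) = y + s := by ring
    rw [← PSys.tau_add, ← PSys.tau_add, e]
  rw [h, inner_tau, inner_def]

private noncomputable def ReL_19787 (u : A) : A →ₗ[ℝ] ℝ where
  toFun w := (⟪w, u⟫_ℂ).re
  map_add' a b := by rw [inner_add_left, Complex.add_re]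
  map_smul' c a := by
    rw [← Complex.coe_smul, inner_smul_left, Complex.conj_ofReal, Complex.re_ofReal_mul]
    rfl

private noncomputable def ReR_19787 (u : A) : A →ₗ[ℝ] ℝ where
  toFun w := (⟪u, w⟫_ℂ).re
  map_add' a b := by rw [inner_add_right, Complex.add_re]
  map_smul' c a := by
    rw [← Complex.coe_smul, inner_smul_right, Complex.re_ofReal_mul]
    rfl

private theorem inner_EE_19787 (θ : LG ℤ) (F F' : ℤ → A) :
    (⟪EE θ F, EE θ F'⟫_ℂ).re = EE θ (fun t => EE θ fun t' => (⟪F t, F' t'⟫_ℂ).re) := by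
  have h1 : (⟪EE θ F, EE θ F'⟫_ℂ).re = EE θ (fun t => (⟪F t, EE θ F'⟫_ℂ).re) :=
    (EE_map (ReL_19787 (EE θ F')) θ F).symm
  rw [h1]
  congr 1
  funext t
  exact (EE_map (ReR_19787 (F t)) θ F').symm

private theorem CC_row_aux_19787 (f : A) (h k : ℤ) :
    CC f h k = (PSys.E (star (star f * PSys.tau (2 * h) f) *
      PSys.tau k (star f * PSys.tau (2 * h) f))).re := by
  unfold CC
  congr 2
  rw [star_mul, star_star, map_mul, PSys.tau_add k (2 * h) f, map_star]
  ring

private theorem CC_col_aux_19787 (f : A) (h k : ℤ) :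
    CC f h k = (PSys.E (star (star f * PSys.tau k f) *
      PSys.tau (2 * h) (star f * PSys.tau k f))).re := by
  unfold CC
  congr 2
  rw [star_mul, star_star, map_mul, add_comm k (2 * h), PSys.tau_add (2 * h) k f,
    map_star (PSys.tau k : A →⋆ₐ[ℂ] A) f]
  ring

theorem CC_row (θ : LG ℤ) (f : A) (h y : ℤ) :
    EE θ (fun t => EE θ fun t' => CC f h (t' - t + y)) =
      (⟪WW θ f h, PSys.tau y (WW θ f h)⟫_ℂ).re := by
  unfold WW
  rw [tau_EE, inner_EE_19787]
  congr 1
  funext t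
  congr 1
  funext t'
  rw [aux1_19787, CC_row_aux_19787]

theorem CC_col (ρ : LG ℤ) (f : A) (k x : ℤ) :
    EE ρ (fun r => EE ρ fun r' => CC f (r' - r + x) k) =
      (⟪GG ρ f k, PSys.tau (2 * x) (GG ρ f k)⟫_ℂ).re := by
  unfold GG
  rw [tau_EE, inner_EE_19787]
  congr 1
  funext r
  congr 1
  funext r'
  rw [aux1_19787, CC_col_aux_19787]
  have e : 2 * (r' - r + x) = 2 * r' - 2 * r + 2 * x := by ring
  rw [e]

/-- row form of the energy -/
theorem BB_row (ρ θ : LG ℤ) (f : A) (x y : ℤ) :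
    BB ρ θ f x y = EE ρ fun r => EE ρ fun r' =>
      (⟪WW θ f (r' - r + x), PSys.tau y (WW θ f (r' - r + x))⟫_ℂ).re := by
  unfold BB
  congr 1
  funext r
  congr 1
  funext r'
  exact CC_row θ f (r' - r + x) y

private theorem EE3_19787 (ρ θ : LG ℤ) (H : ℤ → ℤ → ℤ → ℝ) :
    EE ρ (fun r => EE ρ fun r' => EE θ fun t => H r r' t) =
      EE θ (fun t => EE ρ fun r => EE ρ fun r' => H r r' t) := by
  have h1 : (fun r => EE ρ fun r' => EE θ fun t => H r r' t) =
      fun r => EE θ fun t => EE ρ fun r' => H r r' t := by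
    funext r
    exact EE_comm ρ θ fun r' t => H r r' t
  rw [h1]
  exact EE_comm ρ θ fun r t => EE ρ fun r' => H r r' t

/-- column form of the energy -/
theorem BB_col (ρ θ : LG ℤ) (f : A) (x y : ℤ) :
    BB ρ θ f x y = EE θ fun t => EE θ fun t' =>
      (⟪GG ρ f (t' - t + y), PSys.tau (2 * x) (GG ρ f (t' - t + y))⟫_ℂ).re := by
  unfold BB
  rw [EE3_19787]
  congr 1
  funext t
  rw [EE3_19787]
  congr 1
  funext t'
  exact CC_col ρ f (t' - t + y) x

end psys

end Pool.TC.FWx
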