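import Pool.Agent.Helper338.TC.Defs
import Pool.Agent.Helper338.TC.FW_L1
import Pool.Agent.Helper338.TC.FW_L2
import Pool.Agent.Helper338.TC.FW_L3
import Pool.Agent.Helper338.TC.FW_L4
import Pool.Agent.Helper338.TC.FW_L5
import Pool.Agent.Helper338.TC.FW_K1
import Pool.Agent.Helper338.TC.FW_K2
import Pool.Agent.Helper338.TC.FW_K3
import Pool.Agent.Helper338.TC.FW_P1
import Pool.Agent.Helper338.TC.FW_P2

open scoped ComplexConjugate InnerProductSpace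

namespace Pool.TC.FWx


section psys
variable {A : Type} [CommRing A] [StarRing A] [Algebra ℂ A] [StarModule ℂ A] [PSys A]


private theorem j19898_norm_sq (n : ℤ) (w : A) :
    ‖PSys.tau n w - w‖ ^ 2 = 2 * ((⟪w, PSys.tau 0 w⟫_ℂ).re - (⟪w, PSys.tau n w⟫_ℂ).re) := by
  have h1 := @norm_sub_sq ℂ A _ _ _ (PSys.tau n w) w
  have h2 : RCLike.re (⟪PSys.tau n w, w⟫_ℂ) = (⟪w, PSys.tau n w⟫_ℂ).re :=
    inner_re_symm (𝕜 := ℂ) _ _
  rw [h1, norm_tau, h2, PSys.tau_zero]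
  have h3 : (⟪w, w⟫_ℂ).re = ‖w‖ ^ 2 := inner_self_eq_norm_sq (𝕜 := ℂ) w
  rw [h3]; ring

private theorem j19898_D0 (n : ℤ) (w : A) :
    (⟪w, PSys.tau n w⟫_ℂ).re ≤ (⟪w, PSys.tau 0 w⟫_ℂ).re := by
  have h1 := j19898_norm_sq n w
  have h2 : 0 ≤ ‖PSys.tau n w - w‖ ^ 2 := sq_nonneg _
  linarith

private theorem j19898_D (x u : ℤ) (w : A) :
    (⟪w, PSys.tau 0 w⟫_ℂ).re - (⟪w, PSys.tau x w⟫_ℂ).re ≤
      2 * ((⟪w, PSys.tau 0 w⟫_ℂ).re - (⟪w, PSys.tau (x + u) w⟫_ℂ).re) +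
      2 * ((⟪w, PSys.tau 0 w⟫_ℂ).re - (⟪w, PSys.tau u w⟫_ℂ).re) := by
  have h1 := j19898_norm_sq x w
  have h2 := j19898_norm_sq (x + u) w
  have h3 := j19898_norm_sq u w
  have h4 : ‖PSys.tau x w - w‖ = ‖PSys.tau (x + u) w - PSys.tau u w‖ := by
    rw [show PSys.tau (x + u) w = PSys.tau u (PSys.tau x w) by rw [← PSys.tau_add, add_comm],
      ← map_sub, norm_tau]
  have h5 : ‖PSys.tau (x + u) w - PSys.tau u w‖ ≤ ‖PSys.tau (x + u) w - w‖ + ‖PSys.tau u w - w‖ := by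
    calc ‖PSys.tau (x + u) w - PSys.tau u w‖
        = ‖(PSys.tau (x + u) w - w) - (PSys.tau u w - w)‖ := by congr 1; abel
      _ ≤ _ := norm_sub_le _ _
  rw [h4] at h1
  have hn : 0 ≤ ‖PSys.tau (x + u) w - PSys.tau u w‖ := norm_nonneg _
  have hb : 0 ≤ ‖PSys.tau (x + u) w - w‖ := norm_nonneg _
  have hc : 0 ≤ ‖PSys.tau u w - w‖ := norm_nonneg _
  revert h1 h2 h3 h5 hn hb hc
  generalize ‖PSys.tau (x + u) w - PSys.tau u w‖ = p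
  generalize ‖PSys.tau (x + u) w - w‖ = q
  generalize ‖PSys.tau u w - w‖ = r
  intro h1 h2 h3 h5 hn hb hc
  nlinarith [sq_nonneg (q - r), mul_nonneg hb hc]

private theorem j19898_E_abs {a : A} (h : a ∈ (PSys.ball : Set A)) : |(PSys.E a).re| ≤ 1 := by
  have h1 : ⟪(1 : A), a⟫_ℂ = PSys.E a := by
    rw [inner_def]; simp
  have h2 : ‖(1 : A)‖ ≤ 1 := norm_le_one PSys.one_mem
  have h3 : ‖a‖ ≤ 1 := norm_le_one h
  calc |(PSys.E a).re| ≤ ‖PSys.E a‖ := Complex.abs_re_le_norm _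
    _ = ‖⟪(1 : A), a⟫_ℂ‖ := by rw [h1]
    _ ≤ ‖(1 : A)‖ * ‖a‖ := norm_inner_le_norm _ _
    _ ≤ 1 * 1 := mul_le_mul h2 h3 (norm_nonneg _) zero_le_one
    _ = 1 := one_mul 1

private theorem j19898_CC_abs {f : A} (hf : f ∈ (PSys.ball : Set A)) (h k : ℤ) :
    |CC f h k| ≤ 1 := by
  unfold CC
  refine j19898_E_abs ?_
  refine PSys.mul_mem _ (PSys.mul_mem _ (PSys.mul_mem _ hf _ (PSys.tau_mem _ _ (PSys.star_mem _ hf)))
    _ (PSys.tau_mem _ _ (PSys.star_mem _ hf))) _ (PSys.tau_mem _ _ hf)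

private theorem j19898_key {θ : LG ℤ} (hθ : IsLaw θ) (F0 F1 F2 F3 : ℤ → ℤ → ℝ)
    (h : ∀ t t', F0 t t' - F1 t t' ≤ 2 * (F0 t t' - F2 t t') + 2 * (F0 t t' - F3 t t')) :
    (EE θ fun t => EE θ fun t' => F0 t t') - (EE θ fun t => EE θ fun t' => F1 t t') ≤
      2 * ((EE θ fun t => EE θ fun t' => F0 t t') - (EE θ fun t => EE θ fun t' => F2 t t')) +
      2 * ((EE θ fun t => EE θ fun t' => F0 t t') - (EE θ fun t => EE θ fun t' => F3 t t')) := by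
  have h1 : (EE θ fun t => EE θ fun t' => (F0 t t' - F1 t t')) ≤
      EE θ fun t => EE θ fun t' => (2 * (F0 t t' - F2 t t') + 2 * (F0 t t' - F3 t t')) :=
    EE_mono hθ _ _ fun t _ => EE_mono hθ _ _ fun t' _ => h t t'
  simp only [EE_sub, EE_add, EE_mul_left] at h1
  exact h1

private theorem j19898_EE_abs {ρ : LG ℤ} (hρ : IsLaw ρ) (F : ℤ → ℝ) (h : ∀ n, |F n| ≤ 1) :
    |EE ρ F| ≤ 1 := by
  rw [abs_le]
  exact ⟨le_EE_of hρ F (-1) (fun n _ => (abs_le.mp (h n)).1),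
    EE_le_of hρ F 1 (fun n _ => (abs_le.mp (h n)).2)⟩

theorem BB_abs {ρ θ : LG ℤ} (hρ : IsLaw ρ) (hθ : IsLaw θ) {f : A} (hf : f ∈ (PSys.ball : Set A))
    (x y : ℤ) : |BB ρ θ f x y| ≤ 1 := by
  unfold BB
  exact j19898_EE_abs hρ _ fun _ => j19898_EE_abs hρ _ fun _ => j19898_EE_abs hθ _ fun _ =>
    j19898_EE_abs hθ _ fun _ => j19898_CC_abs hf _ _

theorem BB_C0 {ρ θ : LG ℤ} (hρ : IsLaw ρ) (hθ : IsLaw θ) (f : A) (x y : ℤ) :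
    BB ρ θ f x y ≤ BB ρ θ f 0 y := by
  rw [BB_col, BB_col]
  refine EE_mono hθ _ _ fun t _ => EE_mono hθ _ _ fun t' _ => ?_
  have := j19898_D0 (2 * x) (GG ρ f (t' - t + y))
  simpa using this

theorem BB_C {ρ θ : LG ℤ} (hρ : IsLaw ρ) (hθ : IsLaw θ) (f : A) (x u y : ℤ) :
    BB ρ θ f 0 y - BB ρ θ f x y ≤
      2 * (BB ρ θ f 0 y - BB ρ θ f (x + u) y) + 2 * (BB ρ θ f 0 y - BB ρ θ f u y) := by
  simp only [BB_col ρ θ f _ y]
  refine j19898_key hθ _ _ _ _ fun t t' => ?_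
  have := j19898_D (2 * x) (2 * u) (GG ρ f (t' - t + y))
  rw [mul_zero, mul_add 2 x u]
  exact this

theorem BB_A0 {ρ θ : LG ℤ} (hρ : IsLaw ρ) (hθ : IsLaw θ) (f : A) (x y : ℤ) :
    BB ρ θ f x y ≤ BB ρ θ f x 0 := by
  rw [BB_row, BB_row]
  refine EE_mono hρ _ _ fun t _ => EE_mono hρ _ _ fun t' _ => ?_
  exact j19898_D0 y (WW θ f (t' - t + x))

theorem BB_A {ρ θ : LG ℤ} (hρ : IsLaw ρ) (hθ : IsLaw θ) (f : A) (x y v : ℤ) :
    BB ρ θ f x 0 - BB ρ θ f x y ≤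
      2 * (BB ρ θ f x 0 - BB ρ θ f x (y + v)) + 2 * (BB ρ θ f x 0 - BB ρ θ f x v) := by
  simp only [BB_row ρ θ f x _]
  refine j19898_key hρ _ _ _ _ fun t t' => ?_
  exact j19898_D y v (WW θ f (t' - t + x))

end psys

end Pool.TC.FWx
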