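import Pool.Agent.Helper338.TC.Defs
import Pool.Agent.Helper338.TC.FW_L1
import Pool.Agent.Helper338.TC.FW_L2
import Pool.Agent.Helper338.TC.FW_L3
import Pool.Agent.Helper338.TC.FW_L4
import Pool.Agent.Helper338.TC.FW_L5
import Pool.Agent.Helper338.TC.FW_K1
import Pool.Agent.Helper338.TC.FW_K2
import Pool.Agent.Helper338.TC.FW_K3
import Pool.Agent.Helper338.TC.FW_P1
import Pool.Agent.Helper338.TC.FW_P2
import Pool.Agent.Helper338.TC.FW_P3

open scoped ComplexConjugate InnerProductSpace

namespace Pool.TC.FWx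


section psys
variable {A : Type} [CommRing A] [StarRing A] [Algebra ℂ A] [StarModule ℂ A] [PSys A]

private theorem h170_pairA {G G' : Type} {V : Type*} [AddCommGroup V] [Module ℝ V]
    (ρ : LG G) (P : LG G') (F : G → G' → G → G' → V) :
    EE ρ (fun r => EE P fun p => EE ρ fun r' => EE P fun p' => F r p r' p') =
      EE P (fun p => EE P fun p' => EE ρ fun r => EE ρ fun r' => F r p r' p') := by
  rw [EE_comm]
  congr 1
  funext p
  rw [show (fun r => EE ρ fun r' => EE P fun p' => F r p r' p') =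
    (fun r => EE P fun p' => EE ρ fun r' => F r p r' p') from funext fun r => EE_comm ρ P _]
  rw [EE_comm]

private theorem h170_pairB {G G' : Type} {V : Type*} [AddCommGroup V] [Module ℝ V]
    (ρ : LG G) (P : LG G') (F : G → G → G' → G' → V) :
    EE ρ (fun r => EE ρ fun r' => EE P fun q => EE P fun q' => F r r' q q') =
      EE P (fun q => EE P fun q' => EE ρ fun r => EE ρ fun r' => F r r' q q') := by
  have h1 : ∀ H : G → G' → G' → V, EE ρ (fun r' => EE P fun q => EE P fun q' => H r' q q') =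
      EE P (fun q => EE P fun q' => EE ρ fun r' => H r' q q') := by
    intro H
    rw [EE_comm]
    congr 1
    funext q
    rw [EE_comm]
  rw [show (fun r => EE ρ fun r' => EE P fun q => EE P fun q' => F r r' q q') =
    (fun r => EE P fun q => EE P fun q' => EE ρ fun r' => F r r' q q') from funext fun r => h1 _]
  rw [h1]

theorem BB_mul (ρ θ P P' : LG ℤ) (f : A) :
    BB (ρ * P) (θ * P') f 0 0 = EE P fun p => EE P fun p' => EE P' fun q => EE P' fun q' =>
      BB ρ θ f (p' - p) (q' - q) := by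
  unfold BB
  have h1 : ∀ r r' : ℤ, (EE (θ * P') fun t => EE (θ * P') fun t' =>
      CC f (r' - r + 0) (t' - t + 0)) =
      EE P' (fun q => EE P' fun q' => EE θ fun t => EE θ fun t' =>
        CC f (r' - r) (t' - t + (q' - q))) := by
    intro r r'
    rw [EE_mul]
    rw [← h170_pairA]
    congr 1
    funext t
    congr 1
    funext q
    rw [EE_mul]
    congr 1
    funext t'
    congr 1
    funext q'
    congr 1
    · ring
    · ring
  simp_rw [h1]
  rw [EE_mul]
  have h2 : ∀ r p : ℤ, (EE (ρ * P) fun r' => EE P' fun q => EE P' fun q' => EE θ fun t =>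
      EE θ fun t' => CC f (r' - (r + p)) (t' - t + (q' - q))) =
      (EE ρ fun r' => EE P fun p' => EE P' fun q => EE P' fun q' => EE θ fun t =>
      EE θ fun t' => CC f (r' - r + (p' - p)) (t' - t + (q' - q))) := by
    intro r p
    rw [EE_mul]
    congr 1
    funext r'
    congr 1
    funext p'
    rw [show r' + p' - (r + p) = r' - r + (p' - p) by ring]
  simp_rw [h2]
  rw [h170_pairA]
  congr 1
  funext p
  congr 1
  funext p'
  rw [h170_pairB]

theorem vv_zero (ρ : LG ℤ) (f₁ f₂ : A) : vv ρ f₁ f₂ 0 = AA ρ f₁ f₂ := by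
  unfold vv
  rw [mul_zero, PSys.tau_zero, PSys.tau_zero]

theorem AA_mul (ρ σ : LG ℤ) (f₁ f₂ : A) : AA (ρ * σ) f₁ f₂ = EE σ (vv ρ f₁ f₂) := by
  unfold AA
  rw [mul_comm ρ σ, EE_mul]
  congr 1
  funext c
  unfold vv AA
  congr 1
  funext a
  rw [← PSys.tau_add, ← PSys.tau_add, add_comm c a, mul_add]

theorem AA_norm {ρ : LG ℤ} (hρ : IsLaw ρ) {f₁ f₂ : A} (h₁ : f₁ ∈ (PSys.ball : Set A))
    (h₂ : f₂ ∈ (PSys.ball : Set A)) : ‖AA ρ f₁ f₂‖ ≤ 1 := by
  unfold AA
  apply norm_EE_le_of hρ
  intro n _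
  exact norm_le_one (PSys.mul_mem _ (PSys.tau_mem _ _ h₁) _ (PSys.tau_mem _ _ h₂))

end psys

end Pool.TC.FWx
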