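import Pool.Agent.Helper338.TC.Defs
import Pool.Agent.Helper338.TC.FW_L1
import Pool.Agent.Helper338.TC.FW_L2
import Pool.Agent.Helper338.TC.FW_L3
import Pool.Agent.Helper338.TC.FW_L4
import Pool.Agent.Helper338.TC.FW_L5
import Pool.Agent.Helper338.TC.FW_K1
import Pool.Agent.Helper338.TC.FW_K2
import Pool.Agent.Helper338.TC.FW_K3
import Pool.Agent.Helper338.TC.FW_P1
import Pool.Agent.Helper338.TC.FW_P2
import Pool.Agent.Helper338.TC.FW_P3
import Pool.Agent.Helper338.TC.FW_P4

open scoped ComplexConjugate InnerProductSpace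

namespace Pool.TC.FWx


section psys
variable {A : Type} [CommRing A] [StarRing A] [Algebra ℂ A] [StarModule ℂ A] [PSys A]

private noncomputable def giT (a : A) : A →ₗ[ℝ] ℝ where
  toFun w := (PSys.E (a * w)).re
  map_add' x y := by simp [mul_add]
  map_smul' r x := by
    have : a * (r • x) = (r : ℂ) • (a * x) := by
      rw [← Algebra.mul_smul_comm]; rfl
    rw [this]
    simp

private theorem giT_apply (a w : A) : giT a w = (PSys.E (a * w)).re := rfl

private noncomputable def giS (b : A) : A →ₗ[ℝ] ℝ where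
  toFun w := (⟪w, b⟫_ℂ).re
  map_add' x y := by simp [inner_add_left]
  map_smul' r x := by
    have : r • x = (r : ℂ) • x := rfl
    rw [this, inner_smul_left]
    simp

private theorem gi_inner_EE (ρ : LG ℤ) (u v : ℤ → A) :
    (⟪EE ρ u, EE ρ v⟫_ℂ).re = EE ρ (fun r => EE ρ fun r' => (⟪u r, v r'⟫_ℂ).re) := by
  have h1 : (⟪EE ρ u, EE ρ v⟫_ℂ).re = EE ρ (fun r => (⟪u r, EE ρ v⟫_ℂ).re) :=
    (EE_map (giS (EE ρ v)) ρ u).symm
  rw [h1]
  congr 1
  funext r
  exact (EE_map (giT (star (u r))) ρ v).symm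

/-- the Gram matrix in terms of the row vectors, after inserting the small window `θ` -/
theorem gram_insert {ρ θ : LG ℤ} (hρ : IsLaw ρ) (hθ : IsLaw θ) {f₁ f₂ : A}
    (h₁ : f₁ ∈ (PSys.ball : Set A)) (h₂ : f₂ ∈ (PSys.ball : Set A)) (ω : ℝ)
    (hω : ∀ t, θ.coeff t ≠ 0 → Inv ρ t ω) (c c' : ℤ) :
    |(⟪vv ρ f₁ f₂ c, vv ρ f₁ f₂ c'⟫_ℂ).re - EE ρ (fun r => EE ρ fun r' =>
      (PSys.E ((star f₁ * PSys.tau (r' - r + (c' - c)) f₁) *
        PSys.tau (r + c) (WW θ f₂ (r' - r + (c' - c))))).re)| ≤ 2 * ω := by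
  classical
  set u : ℤ → ℤ → A := fun c r => PSys.tau (r + c) f₁ * PSys.tau (2 * (r + c)) f₂ with hu
  have hvv : ∀ c, vv ρ f₁ f₂ c = EE ρ (u c) := by
    intro c
    unfold vv AA
    congr 1
    funext a
    rw [hu]
    simp only
    rw [← PSys.tau_add, ← PSys.tau_add, mul_add]
  have hub : ∀ c r, u c r ∈ (PSys.ball : Set A) := by
    intro c r
    exact PSys.mul_mem _ (PSys.tau_mem _ _ h₁) _ (PSys.tau_mem _ _ h₂)
  set G : ℤ → ℤ → ℝ := fun r r' => (⟪u c r, u c' r'⟫_ℂ).re with hG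
  have hG1 : ∀ r r', |G r r'| ≤ 1 := by
    intro r r'
    have h3 := Complex.abs_re_le_norm (⟪u c r, u c' r'⟫_ℂ)
    have h4 := norm_inner_le_norm (𝕜 := ℂ) (u c r) (u c' r')
    have h5 := norm_le_one (hub c r)
    have h6 := norm_le_one (hub c' r')
    have h7 : ‖u c r‖ * ‖u c' r'‖ ≤ 1 := mul_le_one₀ h5 (norm_nonneg _) h6
    exact h3.trans (h4.trans h7)
  have hgram : (⟪vv ρ f₁ f₂ c, vv ρ f₁ f₂ c'⟫_ℂ).re = EE ρ (fun r => EE ρ fun r' => G r r') := by
    rw [hvv, hvv, gi_inner_EE]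
  -- pointwise identity
  have hpt : ∀ r r', EE θ (fun t => G (r + t) (r' + t)) =
      (PSys.E ((star f₁ * PSys.tau (r' - r + (c' - c)) f₁) *
        PSys.tau (r + c) (WW θ f₂ (r' - r + (c' - c))))).re := by
    intro r r'
    rw [WW, tau_EE, ← giT_apply, ← EE_map]
    congr 1
    funext t
    rw [giT_apply, ← PSys.tau_add]
    set h : ℤ := r' - r + (c' - c) with hh
    have e1 : r' + t + c' = (r + c + t) + h := by rw [hh]; ring
    have e2 : r + t + c = r + c + t := by ring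
    set s : ℤ := r + c + t with hs
    have e3 : 2 * (s + h) = s + (s + 2 * h) := by ring
    have e4 : 2 * s = s + s := by ring
    rw [hG]
    simp only
    rw [inner_def, hu]
    simp only
    rw [e1, e2, e3, e4, PSys.tau_add s h, PSys.tau_add s (s + 2 * h), PSys.tau_add s s,
      PSys.tau_add s (2 * h)]
    rw [← PSys.E_tau s ((star f₁ * PSys.tau h f₁) * PSys.tau s (star f₂ * PSys.tau (2 * h) f₂))]
    congr 2
    simp only [map_mul, map_star, star_mul]
    ring
  have hmain : ∀ t, θ.coeff t ≠ 0 → |EE ρ (fun r => EE ρ fun r' => G r r') -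
      EE ρ (fun r => EE ρ fun r' => G (r + t) (r' + t))| ≤ 2 * ω := by
    intro t ht
    have hinv := hω t ht
    have hΦ : ∀ r, |EE ρ (fun r' => G r r')| ≤ 1 := by
      intro r
      have := norm_EE_le_of hρ (fun r' => G r r') 1 (fun r' _ => hG1 r r')
      simpa using this
    have h3 := hinv (fun r => EE ρ (fun r' => G r r')) hΦ
    have h4 : ∀ r, |EE ρ (fun r' => G (r + t) (r' + t)) - EE ρ (fun r' => G (r + t) r')| ≤ ω :=
      fun r => hinv (fun r' => G (r + t) r') (fun r' => hG1 _ _)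
    have h5 : |EE ρ (fun r => EE ρ (fun r' => G (r + t) (r' + t)) -
        EE ρ (fun r' => G (r + t) r'))| ≤ ω := by
      have := norm_EE_le_of hρ (fun r => EE ρ (fun r' => G (r + t) (r' + t)) -
        EE ρ (fun r' => G (r + t) r')) ω (fun r _ => h4 r)
      simpa using this
    rw [EE_sub] at h5
    rw [abs_le] at h3 h5 ⊢
    constructor <;> linarith [h3.1, h3.2, h5.1, h5.2]
  have hfin : EE ρ (fun r => EE ρ fun r' =>
      (PSys.E ((star f₁ * PSys.tau (r' - r + (c' - c)) f₁) *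
        PSys.tau (r + c) (WW θ f₂ (r' - r + (c' - c))))).re) =
      EE θ (fun t => EE ρ (fun r => EE ρ fun r' => G (r + t) (r' + t))) := by
    rw [EE_comm θ ρ (fun t r => EE ρ fun r' => G (r + t) (r' + t))]
    congr 1
    funext r
    rw [EE_comm θ ρ (fun t r' => G (r + t) (r' + t))]
    congr 1
    funext r'
    exact (hpt r r').symm
  rw [hgram, hfin]
  have h6 : EE ρ (fun r => EE ρ fun r' => G r r') -
      EE θ (fun t => EE ρ (fun r => EE ρ fun r' => G (r + t) (r' + t))) =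
      EE θ (fun t => EE ρ (fun r => EE ρ fun r' => G r r') -
        EE ρ (fun r => EE ρ fun r' => G (r + t) (r' + t))) := by
    rw [EE_sub, EE_const hθ]
  rw [h6]
  have := norm_EE_le_of hθ (fun t => EE ρ (fun r => EE ρ fun r' => G r r') -
        EE ρ (fun r => EE ρ fun r' => G (r + t) (r' + t))) (2 * ω) (fun t ht => hmain t ht)
  simpa using this

end psys

end Pool.TC.FWx
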