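import Pool.Agent.Helper338.TC.Defs
import Pool.Agent.Helper338.TC.FW_L1
import Pool.Agent.Helper338.TC.FW_L2
import Pool.Agent.Helper338.TC.FW_L3
import Pool.Agent.Helper338.TC.FW_L4
import Pool.Agent.Helper338.TC.FW_L5
import Pool.Agent.Helper338.TC.FW_K1
import Pool.Agent.Helper338.TC.FW_K2
import Pool.Agent.Helper338.TC.FW_K3
import Pool.Agent.Helper338.TC.FW_P1
import Pool.Agent.Helper338.TC.FW_P2
import Pool.Agent.Helper338.TC.FW_P3
import Pool.Agent.Helper338.TC.FW_P4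
import Pool.Agent.Helper338.TC.FW_P5

open scoped ComplexConjugate InnerProductSpace

namespace Pool.TC.FWx


section psys
variable {A : Type} [CommRing A] [StarRing A] [Algebra ℂ A] [StarModule ℂ A] [PSys A]

private theorem gs_re_le {Y w : A} (hY : Y ∈ (PSys.ball : Set A)) :
    |(PSys.E (Y * w)).re| ≤ ‖w‖ := by
  have h1 : PSys.E (Y * w) = ⟪star Y, w⟫_ℂ := by rw [inner_def, star_star]
  rw [h1]
  refine (Complex.abs_re_le_norm _).trans ((norm_inner_le_norm (𝕜 := ℂ) (star Y) w).trans ?_)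
  exact mul_le_of_le_one_left (norm_nonneg w) (norm_le_one (PSys.star_mem Y hY))

private theorem gs_D (e : ℤ) (W : A) : ‖PSys.tau e W - W‖ ^ 2
    = 2 * ((⟪W, PSys.tau 0 W⟫_ℂ).re - (⟪W, PSys.tau e W⟫_ℂ).re) := by
  have h1 := norm_sub_sq (𝕜 := ℂ) (PSys.tau e W) W
  have h2 : RCLike.re (⟪PSys.tau e W, W⟫_ℂ) = (⟪W, PSys.tau e W⟫_ℂ).re :=
    inner_re_symm (𝕜 := ℂ) (PSys.tau e W) W
  have h3 : (⟪W, W⟫_ℂ).re = ‖W‖ ^ 2 := inner_self_eq_norm_sq (𝕜 := ℂ) W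
  rw [h1, h2, norm_tau, PSys.tau_zero, h3]
  ring

private theorem gs_abs2 {ρ : LG ℤ} (hρ : IsLaw ρ) (d D : ℤ → ℤ → ℝ) (h : ∀ r r', |d r r'| ≤ D r r') :
    |EE ρ (fun r => EE ρ fun r' => d r r')| ≤ EE ρ (fun r => EE ρ fun r' => D r r') := by
  have h1 : |EE ρ (fun r => EE ρ fun r' => d r r')| ≤ EE ρ (fun r => |EE ρ fun r' => d r r'|) :=
    norm_EE_le hρ (fun r => EE ρ fun r' => d r r')
  refine h1.trans (EE_mono hρ _ _ (fun r _ => ?_))
  have h2 : |EE ρ (fun r' => d r r')| ≤ EE ρ (fun r' => |d r r'|) :=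
    norm_EE_le hρ (fun r' => d r r')
  exact h2.trans (EE_mono hρ _ _ (fun r' _ => h r r'))

private theorem gs_sqrt2 {ρ : LG ℤ} (hρ : IsLaw ρ) (D : ℤ → ℤ → ℝ) :
    EE ρ (fun r => EE ρ fun r' => D r r') ≤ Real.sqrt (EE ρ (fun r => EE ρ fun r' => D r r' ^ 2)) := by
  apply Real.le_sqrt_of_sq_le
  refine (EE_sq_le hρ _).trans (EE_mono hρ _ _ (fun r _ => ?_))
  exact EE_sq_le hρ _

theorem gram_shift {ρ θ : LG ℤ} (hρ : IsLaw ρ) (hθ : IsLaw θ) {f₁ f₂ : A}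
    (h₁ : f₁ ∈ (PSys.ball : Set A)) (h₂ : f₂ ∈ (PSys.ball : Set A)) (ω : ℝ)
    (hω : ∀ t, θ.coeff t ≠ 0 → Inv ρ t ω) (c c' e : ℤ) :
    |(⟪vv ρ f₁ f₂ (c + e), vv ρ f₁ f₂ (c' + e)⟫_ℂ).re -
      (⟪vv ρ f₁ f₂ c, vv ρ f₁ f₂ c'⟫_ℂ).re| ≤
      Real.sqrt (2 * (BB ρ θ f₂ (c' - c) 0 - BB ρ θ f₂ (c' - c) e)) + 4 * ω := by
  have g1 := gram_insert hρ hθ h₁ h₂ ω hω c c'
  have g2 := gram_insert hρ hθ h₁ h₂ ω hω (c + e) (c' + e)
  rw [show c' + e - (c + e) = c' - c by ring] at g2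
  have hball : ∀ h : ℤ, star f₁ * PSys.tau h f₁ ∈ (PSys.ball : Set A) := fun h =>
    PSys.mul_mem _ (PSys.star_mem _ h₁) _ (PSys.tau_mem h _ h₁)
  have h3 : |EE ρ (fun r => EE ρ fun r' =>
      (PSys.E ((star f₁ * PSys.tau (r' - r + (c' - c)) f₁) *
        PSys.tau (r + (c + e)) (WW θ f₂ (r' - r + (c' - c))))).re) -
      EE ρ (fun r => EE ρ fun r' =>
      (PSys.E ((star f₁ * PSys.tau (r' - r + (c' - c)) f₁) *
        PSys.tau (r + c) (WW θ f₂ (r' - r + (c' - c))))).re)|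
      ≤ Real.sqrt (2 * (BB ρ θ f₂ (c' - c) 0 - BB ρ θ f₂ (c' - c) e)) := by
    rw [← EE_sub]
    simp only [← EE_sub]
    refine (gs_abs2 hρ _ (fun r r' => ‖PSys.tau e (WW θ f₂ (r' - r + (c' - c)))
      - WW θ f₂ (r' - r + (c' - c))‖) ?_).trans ?_
    · intro r r'
      have h4 : (PSys.E ((star f₁ * PSys.tau (r' - r + (c' - c)) f₁) *
          PSys.tau (r + (c + e)) (WW θ f₂ (r' - r + (c' - c))))).re -
          (PSys.E ((star f₁ * PSys.tau (r' - r + (c' - c)) f₁) *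
          PSys.tau (r + c) (WW θ f₂ (r' - r + (c' - c))))).re
          = (PSys.E ((star f₁ * PSys.tau (r' - r + (c' - c)) f₁) *
            PSys.tau (r + c) (PSys.tau e (WW θ f₂ (r' - r + (c' - c)))
              - WW θ f₂ (r' - r + (c' - c))))).re := by
        rw [map_sub, mul_sub, map_sub, Complex.sub_re, ← PSys.tau_add, add_assoc]
      rw [h4]
      refine (gs_re_le (hball _)).trans ?_
      rw [norm_tau]
    · refine (gs_sqrt2 hρ _).trans (le_of_eq ?_)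
      congr 1
      rw [BB_row, BB_row, ← EE_sub]
      simp only [← EE_sub]
      rw [← EE_mul_left]
      simp only [← EE_mul_left]
      simp only [gs_D]
  have e1 := abs_le.mp g1
  have e2 := abs_le.mp g2
  have e3 := abs_le.mp h3
  rw [abs_le]
  constructor <;> linarith [e1.1, e1.2, e2.1, e2.2, e3.1, e3.2]

end psys

end Pool.TC.FWx
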