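import Pool.Agent.Helper338.TC.Defs
import Pool.Agent.Helper338.TC.FW_L1
import Pool.Agent.Helper338.TC.FW_L2
import Pool.Agent.Helper338.TC.FW_L3
import Pool.Agent.Helper338.TC.FW_L4
import Pool.Agent.Helper338.TC.FW_L5
import Pool.Agent.Helper338.TC.FW_K1
import Pool.Agent.Helper338.TC.FW_K2
import Pool.Agent.Helper338.TC.FW_K3
import Pool.Agent.Helper338.TC.FW_P1
import Pool.Agent.Helper338.TC.FW_P2
import Pool.Agent.Helper338.TC.FW_P3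
import Pool.Agent.Helper338.TC.FW_P4
import Pool.Agent.Helper338.TC.FW_P5
import Pool.Agent.Helper338.TC.FW_P6

open scoped ComplexConjugate InnerProductSpace

namespace Pool.TC.FWx


section psys
variable {A : Type} [CommRing A] [StarRing A] [Algebra ℂ A] [StarModule ℂ A] [PSys A]

private theorem sl845_lam {ρ θ R₂ R₃ : LG ℤ} (hR₂ : IsLaw R₂) (hR₃ : IsLaw R₃) (f : A) :
    EE R₃ (fun p => EE R₃ fun p' => EE R₂ fun q => EE R₂ fun q' =>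
      BB ρ θ f 0 0 - BB ρ θ f (p' - p) (q' - q)) =
      BB ρ θ f 0 0 - BB (ρ * R₃) (θ * R₂) f 0 0 := by
  rw [BB_mul]
  have e1 : ∀ p p' q, EE R₂ (fun q' => BB ρ θ f 0 0 - BB ρ θ f (p' - p) (q' - q)) =
      BB ρ θ f 0 0 - EE R₂ (fun q' => BB ρ θ f (p' - p) (q' - q)) := by
    intro p p' q
    rw [EE_sub, EE_const hR₂]
  simp only [e1]
  have e2 : ∀ p p', EE R₂ (fun q => BB ρ θ f 0 0 -
      EE R₂ (fun q' => BB ρ θ f (p' - p) (q' - q))) =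
      BB ρ θ f 0 0 - EE R₂ (fun q => EE R₂ (fun q' => BB ρ θ f (p' - p) (q' - q))) := by
    intro p p'
    rw [EE_sub, EE_const hR₂]
  simp only [e2]
  have e3 : ∀ p, EE R₃ (fun p' => BB ρ θ f 0 0 -
      EE R₂ (fun q => EE R₂ (fun q' => BB ρ θ f (p' - p) (q' - q)))) =
      BB ρ θ f 0 0 - EE R₃ (fun p' => EE R₂ (fun q => EE R₂ (fun q' =>
        BB ρ θ f (p' - p) (q' - q)))) := by
    intro p
    rw [EE_sub, EE_const hR₃]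
  simp only [e3]
  rw [EE_sub, EE_const hR₃]

/-- one step, for given laws -/
theorem step_laws {ρ θ R₀ R₁ R₂ R₃ : LG ℤ} (hρ : IsLaw ρ) (hθ : IsLaw θ) (hR₀ : IsLaw R₀)
    (hR₁ : IsLaw R₁) (hR₂ : IsLaw R₂) (hR₃ : IsLaw R₃) {f₁ f₂ : A}
    (h₁ : f₁ ∈ (PSys.ball : Set A)) (h₂ : f₂ ∈ (PSys.ball : Set A)) (ω ω' : ℝ) (hω'0 : 0 ≤ ω')
    (hω : ∀ t, θ.coeff t ≠ 0 → Inv ρ t ω)
    (h03 : ∀ x, R₀.coeff x ≠ 0 → Inv R₃ x ω') (h01 : ∀ x, R₀.coeff x ≠ 0 → Inv R₁ x ω')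
    (h12 : ∀ c, R₁.coeff c ≠ 0 → Inv R₂ c ω') (lam1 lam2 : ℝ)
    (hl1 : lam1 = BB ρ θ f₂ 0 0 - BB (ρ * R₃) (θ * R₂) f₂ 0 0)
    (hl2 : lam2 = ‖AA ρ f₁ f₂‖ ^ 2 - ‖AA (ρ * R₁) f₁ f₂‖ ^ 2) :
    0 ≤ lam1 ∧ -(Real.sqrt (40 * (lam1 + ω')) + 4 * ω) ≤ lam2 ∧
    ‖AA (ρ * R₀) f₁ f₂ - AA ρ f₁ f₂‖ ^ 2 ≤
      4 * lam2 + 8 * (Real.sqrt (40 * (lam1 + ω')) + 4 * ω) + 8 * ω' := by
  have hlam := sl845_lam (ρ := ρ) (θ := θ) hR₂ hR₃ f₂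
  rw [← hl1] at hlam
  have hnn : 0 ≤ lam1 := by
    rw [← hlam]
    refine le_EE_of hR₃ _ _ fun p _ => ?_
    refine le_EE_of hR₃ _ _ fun p' _ => ?_
    refine le_EE_of hR₂ _ _ fun q _ => ?_
    refine le_EE_of hR₂ _ _ fun q' _ => ?_
    have h1 := BB_A0 hρ hθ f₂ (p' - p) (q' - q)
    have h2 := BB_C0 hρ hθ f₂ (p' - p) 0
    linarith
  have hker : ∀ x c, Inv R₃ x ω' → R₁.coeff c ≠ 0 →
      2 * (BB ρ θ f₂ x 0 - BB ρ θ f₂ x c) ≤ 40 * (lam1 + ω') := by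
    intro x c hx hc
    exact key_kernel (fun x y => BB ρ θ f₂ x y) (fun x y => BB_abs hρ hθ h₂ x y)
      (fun x y => BB_C0 hρ hθ f₂ x y) (fun x u y => BB_C hρ hθ f₂ x u y)
      (fun x y => BB_A0 hρ hθ f₂ x y) (fun x y v => BB_A hρ hθ f₂ x y v) R₃ R₂ hR₃ hR₂ ω' lam1
      hlam x c hx (h12 c hc)
  have hshift : ∀ a x c, Inv R₃ (x - a) ω' → R₁.coeff c ≠ 0 →
      |(⟪vv ρ f₁ f₂ (a + c), vv ρ f₁ f₂ (x + c)⟫_ℂ).re -
        (⟪vv ρ f₁ f₂ a, vv ρ f₁ f₂ x⟫_ℂ).re| ≤ Real.sqrt (40 * (lam1 + ω')) + 4 * ω := by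
    intro a x c hx hc
    have h1 := gram_shift hρ hθ h₁ h₂ ω hω a x c
    have h3 := Real.sqrt_le_sqrt (hker (x - a) c hx hc)
    linarith
  have h0inv : Inv R₃ (0 : ℤ) ω' := (inv_zero R₃).mono hω'0
  have hvar := var_lemma (vv ρ f₁ f₂)
    (fun c => AA_norm hρ (PSys.tau_mem _ _ h₁) (PSys.tau_mem _ _ h₂)) R₀ R₁ hR₀ hR₁
    (Real.sqrt (40 * (lam1 + ω')) + 4 * ω) ω' h01
    (by
      intro x c _ hc
      have h := hshift x x c (by rw [sub_self]; exact h0inv) hc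
      have e : ∀ a : A, (⟪a, a⟫_ℂ).re = ‖a‖ ^ 2 := fun a => inner_self_eq_norm_sq (𝕜 := ℂ) a
      rw [e, e] at h
      exact h)
    (by
      intro x c hx hc
      have h := hshift 0 x c (by rw [sub_zero]; exact h03 x hx) hc
      rw [zero_add] at h
      exact h)
  rw [vv_zero, ← AA_mul, ← AA_mul] at hvar
  refine ⟨hnn, ?_, ?_⟩
  · rw [hl2]
    linarith [hvar.1]
  · rw [hl2]
    exact hvar.2

end psys

end Pool.TC.FWx
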