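import Pool.Agent.Helper338.TC.Defs
import Pool.Agent.Helper338.TC.FW_L1
import Pool.Agent.Helper338.TC.FW_L2
import Pool.Agent.Helper338.TC.FW_L3
import Pool.Agent.Helper338.TC.FW_L4
import Pool.Agent.Helper338.TC.FW_L5
import Pool.Agent.Helper338.TC.FW_K1
import Pool.Agent.Helper338.TC.FW_K2
import Pool.Agent.Helper338.TC.FW_K3
import Pool.Agent.Helper338.TC.FW_P1
import Pool.Agent.Helper338.TC.FW_P2
import Pool.Agent.Helper338.TC.FW_P3
import Pool.Agent.Helper338.TC.FW_P4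
import Pool.Agent.Helper338.TC.FW_P5
import Pool.Agent.Helper338.TC.FW_P6
import Pool.Agent.Helper338.TC.FW_P7

open scoped ComplexConjugate InnerProductSpace

namespace Pool.TC.FWx


section path


theorem RL_split (L : ℕ → ℤ) {a b c : ℕ} (hab : a ≤ b) (hbc : b ≤ c) (κ : ℕ → ℕ) :
    RL L (Finset.Ico a c) κ = RL L (Finset.Ico a b) κ * RL L (Finset.Ico b c) κ := by
  exact (Finset.prod_Ico_consecutive (fun m => UL L m (κ m)) hab hbc).symm

theorem KL_split {a b c : ℕ} (hab : a ≤ b) (hbc : b ≤ c) :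
    KL (Finset.Ico a c) = KL (Finset.Ico a b) * KL (Finset.Ico b c) := by
  exact (Finset.prod_Ico_consecutive (fun m => (AddMonoidAlgebra.single (Pi.single m 1) (1 : ℝ) *
    unif (Pi.single m 1) (Q m) : LG (ℕ → ℕ))) hab hbc).symm

theorem RL_congr (L : ℕ → ℤ) (I : Finset ℕ) (κ κ' : ℕ → ℕ) (h : ∀ m ∈ I, κ m = κ' m) :
    RL L I κ = RL L I κ' := by
  exact Finset.prod_congr rfl fun m hm => by rw [h m hm]

theorem isLaw_RL (L : ℕ → ℤ) (I : Finset ℕ) (κ : ℕ → ℕ) : IsLaw (RL L I κ) := by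
  refine isLaw_prod I _ fun m _ => isLaw_unif _ _ ?_
  unfold Hw Q
  positivity

theorem isLaw_KL (I : Finset ℕ) : IsLaw (KL I) := by
  refine isLaw_prod I _ fun m _ => (isLaw_single _).mul (isLaw_unif _ _ ?_)
  unfold Q
  positivity

theorem supp_KL (I : Finset ℕ) (κ : ℕ → ℕ) (h : (KL I).coeff κ ≠ 0) :
    (∀ m ∉ I, κ m = 0) ∧ ∀ m ∈ I, 1 ≤ κ m := by
  obtain ⟨a, ha, rfl⟩ := supp_prod I _ κ h
  have h1 : ∀ i ∈ I, ∃ j : ℕ, a i = Pi.single i (1 + j) := by
    intro i hi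
    obtain ⟨x, y, hx, hy, hxy⟩ := supp_mul _ _ _ (ha i hi)
    have hx' := supp_single _ _ hx
    obtain ⟨j, -, hj⟩ := supp_unif _ _ _ hy
    refine ⟨j, ?_⟩
    rw [hxy, hx', hj, Pi.single_add]
    congr 1
    ext k
    by_cases hk : k = i
    · subst hk; simp
    · simp [Pi.single_eq_of_ne hk]
  choose! j hj using h1
  have h2 : ∀ m, (∑ i ∈ I, a i) m = if m ∈ I then 1 + j m else 0 := by
    intro m
    rw [Finset.sum_apply]
    have h3 : ∀ i ∈ I, a i m = if m = i then 1 + j i else 0 := by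
      intro i hi
      rw [hj i hi, Pi.single_apply]
    rw [Finset.sum_congr rfl h3, Finset.sum_ite_eq]
  refine ⟨fun m hm => ?_, fun m hm => ?_⟩
  · rw [h2, if_neg hm]
  · rw [h2, if_pos hm]
    omega

end path

end Pool.TC.FWx
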