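import Pool.Agent.Helper338.TC.Defs
import Pool.Agent.Helper338.TC.FW_L1
import Pool.Agent.Helper338.TC.FW_L2
import Pool.Agent.Helper338.TC.FW_L3
import Pool.Agent.Helper338.TC.FW_L4
import Pool.Agent.Helper338.TC.FW_L5
import Pool.Agent.Helper338.TC.FW_K1
import Pool.Agent.Helper338.TC.FW_K2
import Pool.Agent.Helper338.TC.FW_K3
import Pool.Agent.Helper338.TC.FW_P1
import Pool.Agent.Helper338.TC.FW_P2
import Pool.Agent.Helper338.TC.FW_P3
import Pool.Agent.Helper338.TC.FW_P4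
import Pool.Agent.Helper338.TC.FW_P5
import Pool.Agent.Helper338.TC.FW_P6
import Pool.Agent.Helper338.TC.FW_P7
import Pool.Agent.Helper338.TC.FW_R1

open scoped ComplexConjugate InnerProductSpace

namespace Pool.TC.FWx


section path


private theorem Q_pos_j20019 (m : ℕ) : 0 < Q m := by unfold Q; positivity

private theorem Hw_pos_j20019 (m k : ℕ) : 0 < Hw m k := pow_pos (Q_pos_j20019 m) _

theorem inv_RL (L : ℕ → ℤ) (I : Finset ℕ) (κ κ' : ℕ → ℕ) (h : ∀ m ∈ I, κ' m + 1 ≤ κ m) (x : ℤ)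
    (hx : (RL L I κ').coeff x ≠ 0) : Inv (RL L I κ) x (∑ m ∈ I, 2 / (Q m : ℝ)) := by
  obtain ⟨a, ha, rfl⟩ := supp_prod I (fun m => UL L m (κ' m)) x hx
  refine inv_prod I (fun m => UL L m (κ m)) a (fun m => 2 / (Q m : ℝ))
    (fun m _ => isLaw_unif _ _ (Hw_pos_j20019 _ _)) ?_
  intro m hm
  obtain ⟨i, hi, hai⟩ := supp_unif _ _ _ (ha m hm)
  rw [hai]
  refine Inv.mono (inv_unif (3 * L m) (Hw m (κ m)) i (Hw_pos_j20019 _ _)) ?_
  have hQ : (0:ℝ) < Q m := by exact_mod_cast Q_pos_j20019 m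
  have hH : (0:ℝ) < Hw m (κ m) := by exact_mod_cast Hw_pos_j20019 m (κ m)
  rw [div_le_div_iff₀ hH hQ]
  have h1 : i * Q m ≤ Hw m (κ m) := by
    calc i * Q m ≤ Hw m (κ' m) * Q m := Nat.mul_le_mul_right _ hi.le
      _ = Q m ^ (κ' m + 1 + 1) := by unfold Hw; rw [pow_succ (Q m) (κ' m + 1)]
      _ ≤ Q m ^ (κ m + 1) := Nat.pow_le_pow_right (Q_pos_j20019 m) (by have := h m hm; omega)
      _ = Hw m (κ m) := rfl
  have h2 : (i : ℝ) * (Q m : ℝ) ≤ (Hw m (κ m) : ℝ) := by exact_mod_cast h1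
  linarith

theorem inv_KL (I J : Finset ℕ) (hJ : J ⊆ I) (s : ℕ) :
    Inv (KL I) (bump J s) (∑ m ∈ J, 2 * s / (Q m : ℝ)) := by
  have h1 := inv_prod I
    (fun m => (AddMonoidAlgebra.single (Pi.single m 1) (1 : ℝ) *
      unif (Pi.single m 1) (Q m) : LG (ℕ → ℕ)))
    (fun m => (if m ∈ J then s else 0) • (Pi.single m 1 : ℕ → ℕ))
    (fun m => 2 * ((if m ∈ J then s else 0 : ℕ) : ℝ) / (Q m : ℝ))
    (fun m _ => (isLaw_single _).mul (isLaw_unif _ _ (Q_pos_j20019 m)))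
    (fun m _ => Inv.mul_left (inv_unif (Pi.single m 1) (Q m) _ (Q_pos_j20019 m)) (isLaw_single _))
  have h2 : ∑ m ∈ I, (if m ∈ J then s else 0) • (Pi.single m 1 : ℕ → ℕ) = bump J s := by
    funext k
    rw [Finset.sum_apply]
    unfold bump
    have h3 : ∀ m ∈ I, ((if m ∈ J then s else 0) • (Pi.single m 1 : ℕ → ℕ)) k =
        if m = k then (if k ∈ J then s else 0) else 0 := by
      intro m _
      by_cases hmk : m = k
      · subst hmk
        simp
      · have : (Pi.single m 1 : ℕ → ℕ) k = 0 := Pi.single_eq_of_ne (fun h => hmk h.symm) _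
        simp [hmk, this]
    rw [Finset.sum_congr rfl h3, Finset.sum_ite_eq']
    by_cases hk : k ∈ J
    · rw [if_pos (hJ hk)]
    · rw [if_neg hk]
      simp
  have h3 : ∑ m ∈ I, 2 * ((if m ∈ J then s else 0 : ℕ) : ℝ) / (Q m : ℝ) =
      ∑ m ∈ J, 2 * s / (Q m : ℝ) := by
    rw [← Finset.sum_subset hJ]
    · refine Finset.sum_congr rfl fun m hm => ?_
      rw [if_pos hm]
    · intro m _ hm
      rw [if_neg hm]
      simp
  rw [h2, h3] at h1
  exact h1

theorem sum_Q (a b : ℕ) : ∑ m ∈ Finset.Ico a b, 1 / (Q m : ℝ) ≤ (1 / 4 : ℝ) ^ a := by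
  rcases le_or_gt a b with hab | hab
  · have key : ∑ m ∈ Finset.Ico a b, 1 / (Q m : ℝ) ≤ (1 / 4 : ℝ) ^ a - (1 / 4 : ℝ) ^ b := by
      induction b, hab using Nat.le_induction with
      | base => simp
      | succ b hb ih =>
        rw [Finset.sum_Ico_succ_top hb]
        have h1 : 1 / (Q b : ℝ) = (1 / 4 : ℝ) ^ (b + 1) := by
          unfold Q
          push_cast
          rw [one_div, one_div, inv_pow]
        have h2 : (1 / 4 : ℝ) ^ (b + 1) = (1 / 4 : ℝ) ^ b * (1 / 4) := pow_succ _ _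
        have h3 : (0:ℝ) < (1 / 4 : ℝ) ^ b := by positivity
        rw [h1]
        linarith
    have h3 : (0:ℝ) < (1 / 4 : ℝ) ^ b := by positivity
    linarith
  · rw [Finset.Ico_eq_empty (by omega)]
    simp only [Finset.sum_empty]
    positivity

end path

end Pool.TC.FWx
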