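import Pool.Agent.Helper338.TC.Defs
import Pool.Agent.Helper338.TC.FW_L1
import Pool.Agent.Helper338.TC.FW_L2
import Pool.Agent.Helper338.TC.FW_L3
import Pool.Agent.Helper338.TC.FW_L4
import Pool.Agent.Helper338.TC.FW_L5
import Pool.Agent.Helper338.TC.FW_K1
import Pool.Agent.Helper338.TC.FW_K2
import Pool.Agent.Helper338.TC.FW_K3
import Pool.Agent.Helper338.TC.FW_P1
import Pool.Agent.Helper338.TC.FW_P2
import Pool.Agent.Helper338.TC.FW_P3
import Pool.Agent.Helper338.TC.FW_P4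
import Pool.Agent.Helper338.TC.FW_P5
import Pool.Agent.Helper338.TC.FW_P6
import Pool.Agent.Helper338.TC.FW_P7
import Pool.Agent.Helper338.TC.FW_R1
import Pool.Agent.Helper338.TC.FW_R2

open scoped ComplexConjugate InnerProductSpace

namespace Pool.TC.FWx


section path


/-- functions of the path which depend only on the levels below `N` -/
theorem path_marg {V : Type*} [AddCommGroup V] [Module ℝ V] {a N N' : ℕ} (haN : a ≤ N)
    (hN : N ≤ N') (Φ : (ℕ → ℕ) → V) (h : ∀ κ κ' : ℕ → ℕ, (∀ m < N, κ m = κ' m) → Φ κ = Φ κ') :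
    EE (KL (Finset.Ico a N')) Φ = EE (KL (Finset.Ico a N)) Φ := by
  rw [KL_split haN hN, EE_mul]
  refine EE_congr _ _ _ fun k1 _ => ?_
  have h1 : EE (KL (Finset.Ico N N')) (fun b => Φ (k1 + b)) =
      EE (KL (Finset.Ico N N')) (fun _ => Φ k1) := by
    refine EE_congr _ _ _ fun k2 hk2 => h _ _ fun m hm => ?_
    have h2 := (supp_KL _ _ hk2).1 m (by
      rw [Finset.mem_Ico]
      omega)
    rw [Pi.add_apply, h2, add_zero]
  rw [h1, EE_const (isLaw_KL _)]

/-- shifting the path on the levels `[N, N')` -/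
theorem path_shift {a N N' : ℕ} (haN : a ≤ N) (hN : N ≤ N') (s : ℕ) (C : ℝ) (hC : 0 ≤ C)
    (Φ : (ℕ → ℕ) → ℝ) (h : ∀ κ, |Φ κ| ≤ C) :
    |EE (KL (Finset.Ico a N')) (fun κ => Φ (κ + bump (Finset.Ico N N') s)) -
      EE (KL (Finset.Ico a N')) Φ| ≤ C * (2 * s * (1 / 4 : ℝ) ^ N) := by
  have h1 := inv_KL (Finset.Ico a N') (Finset.Ico N N') (Finset.Ico_subset_Ico haN le_rfl) s
  have h2 := Inv.scale h1 C hC Φ h
  refine h2.trans (mul_le_mul_of_nonneg_left ?_ hC)
  have h3 : ∑ m ∈ Finset.Ico N N', 2 * (s : ℝ) / (Q m : ℝ) =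
      2 * s * ∑ m ∈ Finset.Ico N N', 1 / (Q m : ℝ) := by
    rw [Finset.mul_sum]
    exact Finset.sum_congr rfl fun m _ => by ring
  rw [h3]
  exact mul_le_mul_of_nonneg_left (sum_Q N N') (by positivity)

end path

end Pool.TC.FWx
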