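import Pool.Agent.Helper338.TC.Defs
import Pool.Agent.Helper338.TC.FW_L1
import Pool.Agent.Helper338.TC.FW_L2
import Pool.Agent.Helper338.TC.FW_L3
import Pool.Agent.Helper338.TC.FW_L4
import Pool.Agent.Helper338.TC.FW_L5
import Pool.Agent.Helper338.TC.FW_K1
import Pool.Agent.Helper338.TC.FW_K2
import Pool.Agent.Helper338.TC.FW_K3
import Pool.Agent.Helper338.TC.FW_P1
import Pool.Agent.Helper338.TC.FW_P2
import Pool.Agent.Helper338.TC.FW_P3
import Pool.Agent.Helper338.TC.FW_P4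
import Pool.Agent.Helper338.TC.FW_P5
import Pool.Agent.Helper338.TC.FW_P6
import Pool.Agent.Helper338.TC.FW_P7
import Pool.Agent.Helper338.TC.FW_R1
import Pool.Agent.Helper338.TC.FW_R2
import Pool.Agent.Helper338.TC.FW_R3

open scoped ComplexConjugate InnerProductSpace

namespace Pool.TC.FWx


section top
variable {A : Type} [CommRing A] [StarRing A] [Algebra ℂ A] [StarModule ℂ A] [PSys A]

private theorem j20056_sum2 (a b : ℕ) :
    ∑ m ∈ Finset.Ico a b, 2 / (Q m : ℝ) ≤ 2 * (1 / 4 : ℝ) ^ a := by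
  have h := sum_Q a b
  have e : ∑ m ∈ Finset.Ico a b, 2 / (Q m : ℝ) = 2 * ∑ m ∈ Finset.Ico a b, 1 / (Q m : ℝ) := by
    rw [Finset.mul_sum]
    refine Finset.sum_congr rfl fun m _ => ?_
    ring
  rw [e]
  linarith

private theorem j20056_inv (L : ℕ → ℤ) (b c : ℕ) (κ κ' : ℕ → ℕ)
    (h : ∀ m ∈ Finset.Ico b c, κ' m + 1 ≤ κ m) (x : ℤ)
    (hx : (RL L (Finset.Ico b c) κ').coeff x ≠ 0) :
    Inv (RL L (Finset.Ico b c) κ) x (2 * (1 / 4 : ℝ) ^ b) :=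
  (inv_RL L (Finset.Ico b c) κ κ' h x hx).mono (j20056_sum2 b c)

/-- the step for a given path -/
theorem step_path (L : ℕ → ℤ) {a N N' : ℕ} (haN : a ≤ N) (hN : N ≤ N') {f₁ f₂ : A}
    (h₁ : f₁ ∈ (PSys.ball : Set A)) (h₂ : f₂ ∈ (PSys.ball : Set A)) (κ : ℕ → ℕ)
    (hκ : ∀ m ∈ Finset.Ico a N', 1 ≤ κ m) (lam1 lam2 : ℝ)
    (hl1 : lam1 = eN L a N f₂ κ - eN L a N' f₂ (κ + bump (Finset.Ico N N') 3))
    (hl2 : lam2 = aN L a N f₁ f₂ κ - aN L a N' f₁ f₂ (κ + bump (Finset.Ico N N') 1)) :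
    0 ≤ lam1 ∧
    -(Real.sqrt (40 * (lam1 + 2 * (1 / 4 : ℝ) ^ N)) + 8 * (1 / 4 : ℝ) ^ a) ≤ lam2 ∧
    ‖AA (RL L (Finset.Ico a N') κ) f₁ f₂ - AA (RL L (Finset.Ico a N) κ) f₁ f₂‖ ^ 2 ≤
      4 * lam2 + 8 * (Real.sqrt (40 * (lam1 + 2 * (1 / 4 : ℝ) ^ N)) + 8 * (1 / 4 : ℝ) ^ a) +
        16 * (1 / 4 : ℝ) ^ N := by
  classical
  have hρ := isLaw_RL L (Finset.Ico a N) κ
  have hθ := isLaw_RL L (Finset.Ico a N) (fun m => κ m - 1)
  have hR₀ := isLaw_RL L (Finset.Ico N N') κ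
  have hR₁ := isLaw_RL L (Finset.Ico N N') (fun m => κ m + 1)
  have hR₂ := isLaw_RL L (Finset.Ico N N') (fun m => κ m + 2)
  have hR₃ := isLaw_RL L (Finset.Ico N N') (fun m => κ m + 3)
  have hω : ∀ t, (RL L (Finset.Ico a N) (fun m => κ m - 1)).coeff t ≠ 0 →
      Inv (RL L (Finset.Ico a N) κ) t (2 * (1 / 4 : ℝ) ^ a) := by
    intro t ht
    refine j20056_inv L a N κ _ ?_ t ht
    intro m hm
    have h1 : 1 ≤ κ m := by
      apply hκ
      rw [Finset.mem_Ico] at hm ⊢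
      omega
    show κ m - 1 + 1 ≤ κ m
    omega
  have h03 : ∀ x, (RL L (Finset.Ico N N') κ).coeff x ≠ 0 →
      Inv (RL L (Finset.Ico N N') (fun m => κ m + 3)) x (2 * (1 / 4 : ℝ) ^ N) := by
    intro x hx
    refine j20056_inv L N N' _ κ ?_ x hx
    intro m _
    show κ m + 1 ≤ κ m + 3
    omega
  have h01 : ∀ x, (RL L (Finset.Ico N N') κ).coeff x ≠ 0 →
      Inv (RL L (Finset.Ico N N') (fun m => κ m + 1)) x (2 * (1 / 4 : ℝ) ^ N) := by
    intro x hx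
    refine j20056_inv L N N' _ κ ?_ x hx
    intro m _
    show κ m + 1 ≤ κ m + 1
    omega
  have h12 : ∀ c, (RL L (Finset.Ico N N') (fun m => κ m + 1)).coeff c ≠ 0 →
      Inv (RL L (Finset.Ico N N') (fun m => κ m + 2)) c (2 * (1 / 4 : ℝ) ^ N) := by
    intro x hx
    refine j20056_inv L N N' _ (fun m => κ m + 1) ?_ x hx
    intro m _
    show κ m + 1 + 1 ≤ κ m + 2
    omega
  have hbl : ∀ (s : ℕ), ∀ m ∈ Finset.Ico a N, (κ + bump (Finset.Ico N N') s) m = κ m := by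
    intro s m hm
    have hn : m ∉ Finset.Ico N N' := by
      rw [Finset.mem_Ico] at hm ⊢
      omega
    simp [bump, hn]
  have hbr : ∀ (s : ℕ), ∀ m ∈ Finset.Ico N N', (κ + bump (Finset.Ico N N') s) m = κ m + s := by
    intro s m hm
    simp only [Pi.add_apply, bump, if_pos hm]
  have eA : ∀ s : ℕ, RL L (Finset.Ico a N') (κ + bump (Finset.Ico N N') s) =
      RL L (Finset.Ico a N) κ * RL L (Finset.Ico N N') (fun m => κ m + s) := by
    intro s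
    rw [RL_split L haN hN, RL_congr L (Finset.Ico a N) _ κ (hbl s),
      RL_congr L (Finset.Ico N N') _ (fun m => κ m + s) (hbr s)]
  have eB : RL L (Finset.Ico a N') (fun m => (κ + bump (Finset.Ico N N') 3) m - 1) =
      RL L (Finset.Ico a N) (fun m => κ m - 1) *
        RL L (Finset.Ico N N') (fun m => κ m + 2) := by
    rw [RL_split L haN hN,
      RL_congr L (Finset.Ico a N) (fun m => (κ + bump (Finset.Ico N N') 3) m - 1)
        (fun m => κ m - 1) (fun m hm => by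
          show (κ + bump (Finset.Ico N N') 3) m - 1 = κ m - 1
          rw [hbl 3 m hm]),
      RL_congr L (Finset.Ico N N') (fun m => (κ + bump (Finset.Ico N N') 3) m - 1)
        (fun m => κ m + 2) (fun m hm => by
          show (κ + bump (Finset.Ico N N') 3) m - 1 = κ m + 2
          rw [hbr 3 m hm]
          omega)]
  have hl1' : lam1 = BB (RL L (Finset.Ico a N) κ) (RL L (Finset.Ico a N) (fun m => κ m - 1)) f₂ 0 0 -
      BB (RL L (Finset.Ico a N) κ * RL L (Finset.Ico N N') (fun m => κ m + 3))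
        (RL L (Finset.Ico a N) (fun m => κ m - 1) *
          RL L (Finset.Ico N N') (fun m => κ m + 2)) f₂ 0 0 := by
    rw [hl1, ← eA 3, ← eB]
    rfl
  have hl2' : lam2 = ‖AA (RL L (Finset.Ico a N) κ) f₁ f₂‖ ^ 2 -
      ‖AA (RL L (Finset.Ico a N) κ * RL L (Finset.Ico N N') (fun m => κ m + 1)) f₁ f₂‖ ^ 2 := by
    rw [hl2, ← eA 1]
    rfl
  have hω'0 : (0 : ℝ) ≤ 2 * (1 / 4 : ℝ) ^ N := by positivity
  obtain ⟨c1, c2, c3⟩ := step_laws hρ hθ hR₀ hR₁ hR₂ hR₃ h₁ h₂ (2 * (1 / 4 : ℝ) ^ a)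
    (2 * (1 / 4 : ℝ) ^ N) hω'0 hω h03 h01 h12 lam1 lam2 hl1' hl2'
  have e8 : 4 * (2 * (1 / 4 : ℝ) ^ a) = 8 * (1 / 4 : ℝ) ^ a := by ring
  have e16 : 8 * (2 * (1 / 4 : ℝ) ^ N) = 16 * (1 / 4 : ℝ) ^ N := by ring
  rw [e8] at c2 c3
  rw [e16] at c3
  refine ⟨c1, c2, ?_⟩
  rw [RL_split L haN hN]
  exact c3

end top

end Pool.TC.FWx
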