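import Pool.Agent.Helper338.TC.Defs
import Pool.Agent.Helper338.TC.FW_L1
import Pool.Agent.Helper338.TC.FW_L2
import Pool.Agent.Helper338.TC.FW_L3
import Pool.Agent.Helper338.TC.FW_L4
import Pool.Agent.Helper338.TC.FW_L5
import Pool.Agent.Helper338.TC.FW_K1
import Pool.Agent.Helper338.TC.FW_K2
import Pool.Agent.Helper338.TC.FW_K3
import Pool.Agent.Helper338.TC.FW_P1
import Pool.Agent.Helper338.TC.FW_P2
import Pool.Agent.Helper338.TC.FW_P3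
import Pool.Agent.Helper338.TC.FW_P4
import Pool.Agent.Helper338.TC.FW_P5
import Pool.Agent.Helper338.TC.FW_P6
import Pool.Agent.Helper338.TC.FW_P7
import Pool.Agent.Helper338.TC.FW_R1
import Pool.Agent.Helper338.TC.FW_R2
import Pool.Agent.Helper338.TC.FW_R3
import Pool.Agent.Helper338.TC.FW_T1

open scoped ComplexConjugate InnerProductSpace

namespace Pool.TC.FWx


section top
variable {A : Type} [CommRing A] [StarRing A] [Algebra ℂ A] [StarModule ℂ A] [PSys A]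

private theorem stepavg_eN_congr (L : ℕ → ℤ) (a N : ℕ) (f : A) (κ κ' : ℕ → ℕ)
    (h : ∀ m < N, κ m = κ' m) : eN L a N f κ = eN L a N f κ' := by
  unfold eN
  rw [RL_congr L (Finset.Ico a N) κ κ' (fun m hm => h m (Finset.mem_Ico.1 hm).2),
    RL_congr L (Finset.Ico a N) (fun m => κ m - 1) (fun m => κ' m - 1)
      (fun m hm => by rw [h m (Finset.mem_Ico.1 hm).2])]

private theorem stepavg_aN_congr (L : ℕ → ℤ) (a N : ℕ) (f₁ f₂ : A) (κ κ' : ℕ → ℕ)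
    (h : ∀ m < N, κ m = κ' m) : aN L a N f₁ f₂ κ = aN L a N f₁ f₂ κ' := by
  unfold aN
  rw [RL_congr L (Finset.Ico a N) κ κ' (fun m hm => h m (Finset.mem_Ico.1 hm).2)]

private theorem stepavg_AA_congr (L : ℕ → ℤ) (a N : ℕ) (f₁ f₂ : A) (κ κ' : ℕ → ℕ)
    (h : ∀ m < N, κ m = κ' m) : AA (RL L (Finset.Ico a N) κ) f₁ f₂ =
      AA (RL L (Finset.Ico a N) κ') f₁ f₂ := by
  rw [RL_congr L (Finset.Ico a N) κ κ' (fun m hm => h m (Finset.mem_Ico.1 hm).2)]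

private theorem stepavg_eN_abs (L : ℕ → ℤ) (a N : ℕ) {f : A} (hf : f ∈ (PSys.ball : Set A))
    (κ : ℕ → ℕ) : |eN L a N f κ| ≤ 1 := by
  unfold eN
  exact BB_abs (isLaw_RL _ _ _) (isLaw_RL _ _ _) hf 0 0

private theorem stepavg_aN_abs (L : ℕ → ℤ) (a N : ℕ) {f₁ f₂ : A} (h₁ : f₁ ∈ (PSys.ball : Set A))
    (h₂ : f₂ ∈ (PSys.ball : Set A)) (κ : ℕ → ℕ) : |aN L a N f₁ f₂ κ| ≤ 1 := by
  unfold aN
  have h := AA_norm (isLaw_RL L (Finset.Ico a N) κ) h₁ h₂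
  rw [abs_of_nonneg (sq_nonneg _)]
  have h0 := norm_nonneg (AA (RL L (Finset.Ico a N) κ) f₁ f₂)
  nlinarith

/-- the step after averaging over paths -/
theorem step_avg (L : ℕ → ℤ) {a N N' : ℕ} (haN : a ≤ N) (hN : N ≤ N') {f₁ f₂ : A}
    (h₁ : f₁ ∈ (PSys.ball : Set A)) (h₂ : f₂ ∈ (PSys.ball : Set A)) :
    0 ≤ Ebar L a f₂ N - Ebar L a f₂ N' + 6 * (1 / 4 : ℝ) ^ N ∧
    abar L a f₁ f₂ N' ≤ abar L a f₁ f₂ N +
      (Real.sqrt (40 * (Ebar L a f₂ N - Ebar L a f₂ N' + 8 * (1 / 4 : ℝ) ^ N)) +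
        8 * (1 / 4 : ℝ) ^ a) + 2 * (1 / 4 : ℝ) ^ N ∧
    ‖Abar L a f₁ f₂ N' - Abar L a f₁ f₂ N‖ ^ 2 ≤
      4 * (abar L a f₁ f₂ N - abar L a f₁ f₂ N' + 2 * (1 / 4 : ℝ) ^ N) +
      8 * (Real.sqrt (40 * (Ebar L a f₂ N - Ebar L a f₂ N' + 8 * (1 / 4 : ℝ) ^ N)) +
        8 * (1 / 4 : ℝ) ^ a) + 16 * (1 / 4 : ℝ) ^ N := by
  set ρ := KL (Finset.Ico a N') with hρd
  have hρ : IsLaw ρ := isLaw_KL _
  set q : ℝ := (1 / 4 : ℝ) ^ N with hq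
  set r : ℝ := (1 / 4 : ℝ) ^ a with hr
  have hq0 : 0 ≤ q := by positivity
  let lam1 : (ℕ → ℕ) → ℝ := fun κ =>
    eN L a N f₂ κ - eN L a N' f₂ (κ + bump (Finset.Ico N N') 3)
  let lam2 : (ℕ → ℕ) → ℝ := fun κ =>
    aN L a N f₁ f₂ κ - aN L a N' f₁ f₂ (κ + bump (Finset.Ico N N') 1)
  let Sq : (ℕ → ℕ) → ℝ := fun κ => Real.sqrt (40 * (lam1 κ + 2 * q))
  have hstep : ∀ κ, ρ.coeff κ ≠ 0 → 0 ≤ lam1 κ ∧ -(Sq κ + 8 * r) ≤ lam2 κ ∧
      ‖AA (RL L (Finset.Ico a N') κ) f₁ f₂ - AA (RL L (Finset.Ico a N) κ) f₁ f₂‖ ^ 2 ≤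
        4 * lam2 κ + 8 * (Sq κ + 8 * r) + 16 * q := by
    intro κ hκ
    exact step_path L haN hN h₁ h₂ κ (supp_KL _ κ hκ).2 (lam1 κ) (lam2 κ) rfl rfl
  -- averages of `lam1`
  have hE1 : EE ρ lam1 ≤ Ebar L a f₂ N - Ebar L a f₂ N' + 6 * q := by
    have e1 : EE ρ lam1 = EE ρ (eN L a N f₂) -
        EE ρ (fun κ => eN L a N' f₂ (κ + bump (Finset.Ico N N') 3)) := EE_sub _ _ _
    have e2 : EE ρ (eN L a N f₂) = Ebar L a f₂ N :=
      path_marg haN hN (eN L a N f₂) (stepavg_eN_congr L a N f₂)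
    have e3 := path_shift haN hN 3 1 zero_le_one (eN L a N' f₂) (stepavg_eN_abs L a N' h₂)
    rw [abs_le] at e3
    have e4 : EE (KL (Finset.Ico a N')) (eN L a N' f₂) = Ebar L a f₂ N' := rfl
    rw [e4] at e3
    rw [e1, e2]
    have e5 := e3.1
    rw [← hρd] at e5
    push_cast at e5
    linarith
  have hE2 : EE ρ lam2 ≤ abar L a f₁ f₂ N - abar L a f₁ f₂ N' + 2 * q := by
    have e1 : EE ρ lam2 = EE ρ (aN L a N f₁ f₂) -
        EE ρ (fun κ => aN L a N' f₁ f₂ (κ + bump (Finset.Ico N N') 1)) := EE_sub _ _ _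
    have e2 : EE ρ (aN L a N f₁ f₂) = abar L a f₁ f₂ N :=
      path_marg haN hN (aN L a N f₁ f₂) (stepavg_aN_congr L a N f₁ f₂)
    have e3 := path_shift haN hN 1 1 zero_le_one (aN L a N' f₁ f₂) (stepavg_aN_abs L a N' h₁ h₂)
    rw [abs_le] at e3
    have e4 : EE (KL (Finset.Ico a N')) (aN L a N' f₁ f₂) = abar L a f₁ f₂ N' := rfl
    rw [e4] at e3
    rw [e1, e2]
    have e5 := e3.1
    rw [← hρd] at e5
    push_cast at e5
    linarith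
  have hE10 : 0 ≤ EE ρ lam1 := le_EE_of hρ lam1 0 fun κ hκ => (hstep κ hκ).1
  have hSq : EE ρ Sq ≤ Real.sqrt (40 * (Ebar L a f₂ N - Ebar L a f₂ N' + 8 * q)) := by
    have e1 : EE ρ Sq ≤ Real.sqrt (EE ρ (fun κ => 40 * (lam1 κ + 2 * q))) :=
      EE_sqrt_le hρ (fun κ => 40 * (lam1 κ + 2 * q)) fun κ hκ => by
        have := (hstep κ hκ).1
        positivity
    refine le_trans e1 (Real.sqrt_le_sqrt ?_)
    rw [EE_mul_left, EE_add, EE_const hρ]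
    linarith
  refine ⟨le_trans hE10 hE1, ?_, ?_⟩
  · have e1 : EE ρ (fun κ => -(Sq κ + 8 * r)) ≤ EE ρ lam2 :=
      EE_mono hρ _ _ fun κ hκ => (hstep κ hκ).2.1
    have e2 : EE ρ (fun κ => -(Sq κ + 8 * r)) = -(EE ρ Sq + 8 * r) := by
      have e3 : (fun κ => -(Sq κ + 8 * r)) = fun κ => (-1 : ℝ) * (Sq κ + 8 * r) := by
        funext κ; ring
      rw [e3, EE_mul_left, EE_add, EE_const hρ]
      ring
    rw [e2] at e1
    linarith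
  · have e0 : Abar L a f₁ f₂ N' - Abar L a f₁ f₂ N = EE ρ (fun κ =>
        AA (RL L (Finset.Ico a N') κ) f₁ f₂ - AA (RL L (Finset.Ico a N) κ) f₁ f₂) := by
      rw [EE_sub]
      have e2 : EE ρ (fun κ => AA (RL L (Finset.Ico a N) κ) f₁ f₂) = Abar L a f₁ f₂ N :=
        path_marg haN hN (fun κ => AA (RL L (Finset.Ico a N) κ) f₁ f₂)
          (stepavg_AA_congr L a N f₁ f₂)
      rw [e2]
      rfl
    have e1 : ‖Abar L a f₁ f₂ N' - Abar L a f₁ f₂ N‖ ^ 2 ≤ EE ρ (fun κ =>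
        ‖AA (RL L (Finset.Ico a N') κ) f₁ f₂ - AA (RL L (Finset.Ico a N) κ) f₁ f₂‖ ^ 2) := by
      rw [e0]
      exact norm_EE_sq_le hρ _
    have e2 : EE ρ (fun κ =>
        ‖AA (RL L (Finset.Ico a N') κ) f₁ f₂ - AA (RL L (Finset.Ico a N) κ) f₁ f₂‖ ^ 2) ≤
        EE ρ (fun κ => 4 * lam2 κ + 8 * (Sq κ + 8 * r) + 16 * q) :=
      EE_mono hρ _ _ fun κ hκ => (hstep κ hκ).2.2
    have e3 : EE ρ (fun κ => 4 * lam2 κ + 8 * (Sq κ + 8 * r) + 16 * q) =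
        4 * EE ρ lam2 + 8 * (EE ρ Sq + 8 * r) + 16 * q := by
      rw [EE_add, EE_add, EE_const hρ, EE_mul_left, EE_mul_left, EE_add, EE_const hρ]
    rw [e3] at e2
    linarith

end top

end Pool.TC.FWx
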