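import Pool.Agent.Helper338.TC.Defs
import Pool.Agent.Helper338.TC.FW_L1
import Pool.Agent.Helper338.TC.FW_L2
import Pool.Agent.Helper338.TC.FW_L3
import Pool.Agent.Helper338.TC.FW_L4
import Pool.Agent.Helper338.TC.FW_L5
import Pool.Agent.Helper338.TC.FW_K1
import Pool.Agent.Helper338.TC.FW_K2
import Pool.Agent.Helper338.TC.FW_K3
import Pool.Agent.Helper338.TC.FW_P1
import Pool.Agent.Helper338.TC.FW_P2
import Pool.Agent.Helper338.TC.FW_P3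
import Pool.Agent.Helper338.TC.FW_P4
import Pool.Agent.Helper338.TC.FW_P5
import Pool.Agent.Helper338.TC.FW_P6
import Pool.Agent.Helper338.TC.FW_P7
import Pool.Agent.Helper338.TC.FW_R1
import Pool.Agent.Helper338.TC.FW_R2
import Pool.Agent.Helper338.TC.FW_R3
import Pool.Agent.Helper338.TC.FW_T1
import Pool.Agent.Helper338.TC.FW_T2

open scoped ComplexConjugate InnerProductSpace

namespace Pool.TC.FWx


section top
variable {A : Type} [CommRing A] [StarRing A] [Algebra ℂ A] [StarModule ℂ A] [PSys A]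

theorem core_cauchy (L : ℕ → ℤ) (a : ℕ) {f₁ f₂ : A}
    (h₁ : f₁ ∈ (PSys.ball : Set A)) (h₂ : f₂ ∈ (PSys.ball : Set A)) :
    ∃ N₀ ≥ a, ∀ N ≥ N₀, ∀ N' ≥ N₀,
      ‖Abar L a f₁ f₂ N' - Abar L a f₁ f₂ N‖ ^ 2 ≤ 128 * (1 / 4 : ℝ) ^ a := by
  have he : ∀ n, |Ebar L a f₂ n| ≤ 1 := by
    intro n
    unfold Ebar
    have hb : ∀ κ, |eN L a n f₂ κ| ≤ 1 := fun κ => BB_abs (isLaw_RL _ _ _) (isLaw_RL _ _ _) h₂ 0 0
    rw [abs_le]
    exact ⟨le_EE_of (isLaw_KL _) _ _ fun κ _ => (abs_le.1 (hb κ)).1,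
      EE_le_of (isLaw_KL _) _ _ fun κ _ => (abs_le.1 (hb κ)).2⟩
  have ha : ∀ n, 0 ≤ abar L a f₁ f₂ n ∧ abar L a f₁ f₂ n ≤ 1 := by
    intro n
    unfold abar
    refine ⟨le_EE_of (isLaw_KL _) _ _ fun κ _ => sq_nonneg _,
      EE_le_of (isLaw_KL _) _ _ fun κ _ => ?_⟩
    exact pow_le_one₀ (norm_nonneg _) (AA_norm (isLaw_RL _ _ _) h₁ h₂)
  obtain ⟨N₀, hN₀, h⟩ := real_cauchy (fun N => Ebar L a f₂ N) (fun N => abar L a f₁ f₂ N)
    (fun N N' => ‖Abar L a f₁ f₂ N' - Abar L a f₁ f₂ N‖ ^ 2) a ((1 / 4 : ℝ) ^ a) (by positivity)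
    he ha (fun N hN N' hN' => (step_avg L hN hN' h₁ h₂).1)
    (fun N hN N' hN' => (step_avg L hN hN' h₁ h₂).2.1)
    (fun N hN N' hN' => (step_avg L hN hN' h₁ h₂).2.2)
  refine ⟨N₀, hN₀, fun N hN N' hN' => ?_⟩
  rcases le_total N N' with h' | h'
  · exact h N hN N' h'
  · rw [norm_sub_rev]; exact h N' hN' N h'

end top

end Pool.TC.FWx
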