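import Pool.Agent.Helper338.TC.Defs
import Pool.Agent.Helper338.TC.FW_L1
import Pool.Agent.Helper338.TC.FW_L2
import Pool.Agent.Helper338.TC.FW_L3
import Pool.Agent.Helper338.TC.FW_L4
import Pool.Agent.Helper338.TC.FW_L5
import Pool.Agent.Helper338.TC.FW_K1
import Pool.Agent.Helper338.TC.FW_K2
import Pool.Agent.Helper338.TC.FW_K3
import Pool.Agent.Helper338.TC.FW_P1
import Pool.Agent.Helper338.TC.FW_P2
import Pool.Agent.Helper338.TC.FW_P3
import Pool.Agent.Helper338.TC.FW_P4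
import Pool.Agent.Helper338.TC.FW_P5
import Pool.Agent.Helper338.TC.FW_P6
import Pool.Agent.Helper338.TC.FW_P7
import Pool.Agent.Helper338.TC.FW_R1
import Pool.Agent.Helper338.TC.FW_R2
import Pool.Agent.Helper338.TC.FW_R3
import Pool.Agent.Helper338.TC.FW_T1
import Pool.Agent.Helper338.TC.FW_T2
import Pool.Agent.Helper338.TC.FW_T3

open scoped ComplexConjugate InnerProductSpace

namespace Pool.TC.FWx


section top
variable {A : Type} [CommRing A] [StarRing A] [Algebra ℂ A] [StarModule ℂ A] [PSys A]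

/-- pulling out the lower levels -/
theorem Abar_pull (L : ℕ → ℤ) {a b N : ℕ} (hab : a ≤ b) (hbN : b ≤ N) (f₁ f₂ : A) :
    Abar L a f₁ f₂ N = EE (KL (Finset.Ico a b)) (fun κ => EE (RL L (Finset.Ico a b) κ) (fun c =>
      Abar L b (PSys.tau c f₁) (PSys.tau (2 * c) f₂) N)) := by
  unfold Abar AA
  rw [KL_split hab hbN, EE_mul]
  refine EE_congr _ _ _ fun κ₁ h₁ => ?_
  have e1 : ∀ κ₂, (KL (Finset.Ico b N)).coeff κ₂ ≠ 0 →
      EE (RL L (Finset.Ico a N) (κ₁ + κ₂)) (fun n => PSys.tau n f₁ * PSys.tau (2 * n) f₂) =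
      EE (RL L (Finset.Ico a b) κ₁) (fun c => EE (RL L (Finset.Ico b N) κ₂)
        (fun r => PSys.tau (c + r) f₁ * PSys.tau (2 * (c + r)) f₂)) := by
    intro κ₂ h₂
    rw [RL_split L hab hbN (κ₁ + κ₂),
      RL_congr L (Finset.Ico a b) (κ₁ + κ₂) κ₁ (fun m hm => by
        have h3 := (supp_KL _ _ h₂).1 m (by
          intro h
          rw [Finset.mem_Ico] at h hm
          omega)
        rw [Pi.add_apply, h3, add_zero]),
      RL_congr L (Finset.Ico b N) (κ₁ + κ₂) κ₂ (fun m hm => by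
        have h3 := (supp_KL _ _ h₁).1 m (by
          intro h
          rw [Finset.mem_Ico] at h hm
          omega)
        rw [Pi.add_apply, h3, zero_add]), EE_mul]
  rw [EE_congr _ _ _ e1, EE_comm]
  refine EE_congr _ _ _ fun c _ => EE_congr _ _ _ fun κ₂ _ => EE_congr _ _ _ fun r _ => ?_
  rw [← PSys.tau_add, ← PSys.tau_add, add_comm r c, mul_add, add_comm (2 * r)]

end top

end Pool.TC.FWx
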