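import Pool.Agent.Helper338.TC.Defs
import Pool.Agent.Helper338.TC.FW_L1
import Pool.Agent.Helper338.TC.FW_L2
import Pool.Agent.Helper338.TC.FW_L3
import Pool.Agent.Helper338.TC.FW_L4
import Pool.Agent.Helper338.TC.FW_L5
import Pool.Agent.Helper338.TC.FW_K1
import Pool.Agent.Helper338.TC.FW_K2
import Pool.Agent.Helper338.TC.FW_K3
import Pool.Agent.Helper338.TC.FW_P1
import Pool.Agent.Helper338.TC.FW_P2
import Pool.Agent.Helper338.TC.FW_P3
import Pool.Agent.Helper338.TC.FW_P4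
import Pool.Agent.Helper338.TC.FW_P5
import Pool.Agent.Helper338.TC.FW_P6
import Pool.Agent.Helper338.TC.FW_P7
import Pool.Agent.Helper338.TC.FW_R1
import Pool.Agent.Helper338.TC.FW_R2
import Pool.Agent.Helper338.TC.FW_R3
import Pool.Agent.Helper338.TC.FW_T1
import Pool.Agent.Helper338.TC.FW_T2
import Pool.Agent.Helper338.TC.FW_T3
import Pool.Agent.Helper338.TC.FW_T4

open scoped ComplexConjugate InnerProductSpace

namespace Pool.TC.FWx


section top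
variable {A : Type} [CommRing A] [StarRing A] [Algebra ℂ A] [StarModule ℂ A] [PSys A]

theorem Abar_cauchy (L : ℕ → ℤ) (a : ℕ) {f₁ f₂ : A}
    (h₁ : f₁ ∈ (PSys.ball : Set A)) (h₂ : f₂ ∈ (PSys.ball : Set A)) (ε : ℝ) (hε : 0 < ε) :
    ∃ N₀, ∀ N ≥ N₀, ∀ N' ≥ N₀, ‖Abar L a f₁ f₂ N - Abar L a f₁ f₂ N'‖ ≤ ε := by
  classical
  obtain ⟨b, hab, hb⟩ : ∃ b ≥ a, 128 * (1 / 4 : ℝ) ^ b ≤ ε ^ 2 := by
    have h0 : 0 < ε ^ 2 / 128 := by positivity
    obtain ⟨n, hn⟩ := exists_pow_lt_of_lt_one h0 (by norm_num : (1 / 4 : ℝ) < 1)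
    refine ⟨max a n, le_max_left _ _, ?_⟩
    have h1 : (1 / 4 : ℝ) ^ (max a n) ≤ (1 / 4 : ℝ) ^ n :=
      pow_le_pow_of_le_one (by norm_num) (by norm_num) (le_max_right _ _)
    have h2 : (1 / 4 : ℝ) ^ (max a n) < ε ^ 2 / 128 := lt_of_le_of_lt h1 hn
    rw [lt_div_iff₀ (by norm_num)] at h2
    linarith
  have hcore : ∀ c : ℤ, ∃ N₀ ≥ b, ∀ N ≥ N₀, ∀ N' ≥ N₀,
      ‖Abar L b (PSys.tau c f₁) (PSys.tau (2 * c) f₂) N' -
        Abar L b (PSys.tau c f₁) (PSys.tau (2 * c) f₂) N‖ ^ 2 ≤ 128 * (1 / 4 : ℝ) ^ b := fun c =>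
    core_cauchy L b (PSys.tau_mem c f₁ h₁) (PSys.tau_mem (2 * c) f₂ h₂)
  choose N₀ hN₀b hN₀ using hcore
  set M : ℕ := max b ((KL (Finset.Ico a b)).coeff.support.sup
    (fun κ => (RL L (Finset.Ico a b) κ).coeff.support.sup N₀)) with hM
  refine ⟨M, fun N hN N' hN' => ?_⟩
  have hbN : b ≤ N := (le_max_left _ _).trans hN
  have hbN' : b ≤ N' := (le_max_left _ _).trans hN'
  rw [Abar_pull L hab hbN, Abar_pull L hab hbN', ← EE_sub]
  refine norm_EE_le_of (isLaw_KL _) _ ε (fun κ hκ => ?_)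
  rw [← EE_sub]
  refine norm_EE_le_of (isLaw_RL _ _ _) _ ε (fun c hc => ?_)
  have hκ' : κ ∈ (KL (Finset.Ico a b)).coeff.support := Finsupp.mem_support_iff.mpr hκ
  have hc' : c ∈ (RL L (Finset.Ico a b) κ).coeff.support := Finsupp.mem_support_iff.mpr hc
  have hle : N₀ c ≤ M := by
    refine le_trans ?_ (le_max_right _ _)
    refine le_trans ?_ (Finset.le_sup (f := fun κ =>
      (RL L (Finset.Ico a b) κ).coeff.support.sup N₀) hκ')
    exact Finset.le_sup (f := N₀) hc'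
  have h1 := hN₀ c N' (hle.trans hN') N (hle.trans hN)
  have h2 : ‖Abar L b (PSys.tau c f₁) (PSys.tau (2 * c) f₂) N -
        Abar L b (PSys.tau c f₁) (PSys.tau (2 * c) f₂) N'‖ ^ 2 ≤ ε ^ 2 := h1.trans hb
  exact le_of_sq_le_sq h2 hε.le

end top

end Pool.TC.FWx
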