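import Pool.Agent.Helper338.TC.Defs
import Pool.Agent.Helper338.TC.FW_L1
import Pool.Agent.Helper338.TC.FW_L2
import Pool.Agent.Helper338.TC.FW_L3
import Pool.Agent.Helper338.TC.FW_L4
import Pool.Agent.Helper338.TC.FW_L5
import Pool.Agent.Helper338.TC.FW_K1
import Pool.Agent.Helper338.TC.FW_K2
import Pool.Agent.Helper338.TC.FW_K3
import Pool.Agent.Helper338.TC.FW_P1
import Pool.Agent.Helper338.TC.FW_P2
import Pool.Agent.Helper338.TC.FW_P3
import Pool.Agent.Helper338.TC.FW_P4
import Pool.Agent.Helper338.TC.FW_P5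
import Pool.Agent.Helper338.TC.FW_P6
import Pool.Agent.Helper338.TC.FW_P7
import Pool.Agent.Helper338.TC.FW_R1
import Pool.Agent.Helper338.TC.FW_R2
import Pool.Agent.Helper338.TC.FW_R3
import Pool.Agent.Helper338.TC.FW_T1
import Pool.Agent.Helper338.TC.FW_T2
import Pool.Agent.Helper338.TC.FW_T3
import Pool.Agent.Helper338.TC.FW_T4
import Pool.Agent.Helper338.TC.FW_T5

open scoped ComplexConjugate InnerProductSpace

namespace Pool.TC.FWx


section link
variable {A : Type} [CommRing A] [StarRing A] [Algebra ℂ A] [StarModule ℂ A] [PSys A]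

private theorem avg_pi_single {G : Type} [AddCommMonoid G] {ι : Type} (s : Finset ι) (a : ι → G) :
    ∏ i ∈ s, (AddMonoidAlgebra.single (a i) (1 : ℝ) : LG G) =
      AddMonoidAlgebra.single (∑ i ∈ s, a i) (1 : ℝ) := by
  classical
  induction s using Finset.induction_on with
  | empty => simp; rfl
  | insert b s hb ih =>
    rw [Finset.prod_insert hb, Finset.sum_insert hb, ih, AddMonoidAlgebra.single_mul_single, mul_one]

private theorem avg_pi_law {G : Type} [AddCommMonoid G] (I : Finset ℕ) (n : ℕ → ℕ) (g : ℕ → G) :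
    (∏ m ∈ I, unif (g m) (n m) : LG G) = (∏ m : I, (n m : ℝ)⁻¹) •
      ∑ r : (m : I) → Fin (n m), AddMonoidAlgebra.single (∑ m : I, (r m : ℕ) • g m) (1 : ℝ) := by
  classical
  rw [← Finset.prod_coe_sort]
  have h1 : ∀ m : I, unif (g m) (n m) = (n m : ℝ)⁻¹ •
      ∑ i : Fin (n m), (AddMonoidAlgebra.single ((i : ℕ) • g m) (1 : ℝ) : LG G) := by
    intro m
    unfold unif
    rw [Finset.sum_range]
  simp only [h1]
  rw [Finset.prod_smul, Finset.prod_univ_sum, Fintype.piFinset_univ]
  congr 1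
  apply Finset.sum_congr rfl
  intro r _
  exact avg_pi_single Finset.univ (fun m : I => (r m : ℕ) • g m)

/-- uniform average over a box = expectation for a product law -/
theorem avg_pi_eq_EE {G : Type} [AddCommMonoid G] {V : Type*} [AddCommGroup V] [Module ℝ V]
    (I : Finset ℕ) (n : ℕ → ℕ) (hn : ∀ m ∈ I, 0 < n m) (g : ℕ → G) (F : G → V) :
    avg (fun r : (m : I) → Fin (n m) => F (∑ m : I, (r m : ℕ) • g m)) =
      EE (∏ m ∈ I, unif (g m) (n m)) F := by
  rw [avg_pi_law, EE_smul_law, EE_sum_law]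
  unfold avg
  have h1 : ((Fintype.card ((m : I) → Fin (n m)) : ℕ) : ℝ)⁻¹ = ∏ m : I, (n m : ℝ)⁻¹ := by
    rw [Fintype.card_pi, Nat.cast_prod, ← Finset.prod_inv_distrib]
    simp only [Fintype.card_fin]
  rw [h1]
  congr 1
  apply Finset.sum_congr rfl
  intro r _
  rw [EE_single]

end link

end Pool.TC.FWx
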