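import Pool.Agent.Helper338.TC.Defs
import Pool.Agent.Helper338.TC.FW_L1
import Pool.Agent.Helper338.TC.FW_L2
import Pool.Agent.Helper338.TC.FW_L3
import Pool.Agent.Helper338.TC.FW_L4
import Pool.Agent.Helper338.TC.FW_L5
import Pool.Agent.Helper338.TC.FW_K1
import Pool.Agent.Helper338.TC.FW_K2
import Pool.Agent.Helper338.TC.FW_K3
import Pool.Agent.Helper338.TC.FW_P1
import Pool.Agent.Helper338.TC.FW_P2
import Pool.Agent.Helper338.TC.FW_P3
import Pool.Agent.Helper338.TC.FW_P4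
import Pool.Agent.Helper338.TC.FW_P5
import Pool.Agent.Helper338.TC.FW_P6
import Pool.Agent.Helper338.TC.FW_P7
import Pool.Agent.Helper338.TC.FW_R1
import Pool.Agent.Helper338.TC.FW_R2
import Pool.Agent.Helper338.TC.FW_R3
import Pool.Agent.Helper338.TC.FW_T1
import Pool.Agent.Helper338.TC.FW_T2
import Pool.Agent.Helper338.TC.FW_T3
import Pool.Agent.Helper338.TC.FW_T4
import Pool.Agent.Helper338.TC.FW_T5
import Pool.Agent.Helper338.TC.FW_X1
import Pool.Agent.Helper591.TC.IfaceDefs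

open scoped ComplexConjugate InnerProductSpace

namespace Pool.TC.FWx


section link
variable {A : Type} [CommRing A] [StarRing A] [Algebra ℂ A] [StarModule ℂ A] [PSys A]

private theorem prod_single_aux {G : Type} [AddCommMonoid G] (I : Finset ℕ) (g : ℕ → G) :
    ∏ m ∈ I, (AddMonoidAlgebra.single (g m) (1 : ℝ) : LG G) =
      AddMonoidAlgebra.single (∑ m ∈ I, g m) (1 : ℝ) := by
  classical
  induction I using Finset.induction_on with
  | empty => simp [AddMonoidAlgebra.one_def]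
  | insert a s ha ih =>
    rw [Finset.prod_insert ha, Finset.sum_insert ha, ih, AddMonoidAlgebra.single_mul_single]
    simp

private theorem kp_eq_aux (I : Finset ℕ) (u : (m : I) → Fin (Q m)) :
    (∑ m ∈ I, (Pi.single m 1 : ℕ → ℕ)) + ∑ m : I, (u m : ℕ) • (Pi.single (m : ℕ) 1 : ℕ → ℕ) =
      kp I 0 u := by
  classical
  funext n
  rw [Pi.add_apply, Finset.sum_apply, Finset.sum_apply]
  unfold kp
  have e1 : ∑ c ∈ I, (Pi.single c 1 : ℕ → ℕ) n = if n ∈ I then 1 else 0 := by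
    simp only [Pi.single_apply]
    rw [Finset.sum_ite_eq]
  rw [e1]
  by_cases hn : n ∈ I
  · rw [if_pos hn, dif_pos hn]
    rw [Finset.sum_eq_single (⟨n, hn⟩ : I)]
    · simp [add_comm]
    · intro b _ hb
      have : n ≠ (b : ℕ) := fun h => hb (Subtype.ext h.symm)
      simp [this]
    · intro h
      exact absurd (Finset.mem_univ _) h
  · rw [if_neg hn, dif_neg hn, zero_add]
    apply Finset.sum_eq_zero
    intro b _
    have : n ≠ (b : ℕ) := fun h => hn (h ▸ b.2)
    simp [this]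

theorem avg_kp_eq_EE {V : Type*} [AddCommGroup V] [Module ℝ V] (I : Finset ℕ)
    (Φ : (ℕ → ℕ) → V) :
    avg (fun u : (m : I) → Fin (Q m) => Φ (kp I 0 u)) = EE (KL I) Φ := by
  classical
  have h1 : KL I = (AddMonoidAlgebra.single (∑ m ∈ I, (Pi.single m 1 : ℕ → ℕ)) (1 : ℝ) : LG (ℕ → ℕ)) *
      ∏ m ∈ I, unif (Pi.single m 1 : ℕ → ℕ) (Q m) := by
    unfold KL
    rw [Finset.prod_mul_distrib, prod_single_aux I (fun m => (Pi.single m 1 : ℕ → ℕ))]
  rw [h1, EE_mul, EE_single]
  have h2 := avg_pi_eq_EE I Q (fun m _ => by unfold Q; positivity)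
    (fun m => (Pi.single m 1 : ℕ → ℕ))
    (fun b => Φ ((∑ m ∈ I, (Pi.single m 1 : ℕ → ℕ)) + b))
  rw [← h2]
  congr 1
  funext u
  rw [kp_eq_aux]

end link

end Pool.TC.FWx
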