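import Pool.Agent.Helper338.TC.Defs
import Pool.Agent.Helper338.TC.FW_L1
import Pool.Agent.Helper338.TC.FW_L2
import Pool.Agent.Helper338.TC.FW_L3
import Pool.Agent.Helper338.TC.FW_L4
import Pool.Agent.Helper338.TC.FW_L5
import Pool.Agent.Helper338.TC.FW_K1
import Pool.Agent.Helper338.TC.FW_K2
import Pool.Agent.Helper338.TC.FW_K3
import Pool.Agent.Helper338.TC.FW_P1
import Pool.Agent.Helper338.TC.FW_P2
import Pool.Agent.Helper338.TC.FW_P3
import Pool.Agent.Helper338.TC.FW_P4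
import Pool.Agent.Helper338.TC.FW_P5
import Pool.Agent.Helper338.TC.FW_P6
import Pool.Agent.Helper338.TC.FW_P7
import Pool.Agent.Helper338.TC.FW_R1
import Pool.Agent.Helper338.TC.FW_R2
import Pool.Agent.Helper338.TC.FW_R3
import Pool.Agent.Helper338.TC.FW_T1
import Pool.Agent.Helper338.TC.FW_T2
import Pool.Agent.Helper338.TC.FW_T3
import Pool.Agent.Helper338.TC.FW_T4
import Pool.Agent.Helper338.TC.FW_T5
import Pool.Agent.Helper338.TC.FW_X1
import Pool.Agent.Helper338.TC.FW_X2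
import Pool.Agent.Helper591.TC.IfaceDefs

open scoped ComplexConjugate InnerProductSpace

namespace Pool.TC.FWx


section link
variable {A : Type} [CommRing A] [StarRing A] [Algebra ℂ A] [StarModule ℂ A] [PSys A]

theorem avgE_const {ι : Type} [Fintype ι] [Nonempty ι] {V : Type*} [AddCommGroup V] [Module ℝ V]
    (v : V) : avg (fun _ : ι => v) = v := by
  unfold avg
  have h0 : (Fintype.card ι : ℝ) ≠ 0 := by
    exact_mod_cast Fintype.card_ne_zero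
  rw [Finset.sum_const, Finset.card_univ, ← Nat.cast_smul_eq_nsmul ℝ, smul_smul,
    inv_mul_cancel₀ h0, one_smul]

theorem AV_empty (L : ℕ → ℤ) (I : Finset ℕ) (κ : ℕ → ℕ) (f₁ f₂ : A) :
    AV L I ∅ κ f₁ f₂ = AA (RL L I κ) f₁ f₂ := by
  have h1 : ∀ (d : I → Bool) (r : (m : I) → Fin (Hw m (κ m))),
      (∑ m : I, ((if (m : ℕ) ∈ (∅ : Finset ℕ) ∧ d m = true then 1 else 0) +
        3 * ((r m : ℕ) : ℤ)) * L m) = ∑ m : I, (r m : ℕ) • (3 * L m) := by
    intro d r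
    refine Finset.sum_congr rfl ?_
    intro m _
    rw [if_neg (by simp), zero_add, nsmul_eq_mul]
    ring
  unfold AV
  simp_rw [h1]
  rw [avgE_const]
  have h2 := avg_pi_eq_EE I (fun m => Hw m (κ m)) (fun m _ => by
    unfold Hw Q
    positivity) (fun m => 3 * L m) (fun a : ℤ => PSys.tau a f₁ * PSys.tau (2 * a) f₂)
  exact h2

/-- FW: windows only. -/
theorem fw (L : ℕ → ℤ) (m₀ : ℕ) (f₁ f₂ : A) (h₁ : f₁ ∈ PSys.ball) (h₂ : f₂ ∈ PSys.ball)
    (ε : ℝ) (hε : 0 < ε) :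
    ∃ N₀, ∀ N ≥ N₀, ∀ N' ≥ N₀,
      ‖(avg fun u : (m : Finset.Ico m₀ N) → Fin (Q m) =>
          AV L (Finset.Ico m₀ N) ∅ (kp _ 0 u) f₁ f₂) -
        (avg fun u : (m : Finset.Ico m₀ N') → Fin (Q m) =>
          AV L (Finset.Ico m₀ N') ∅ (kp _ 0 u) f₁ f₂)‖ ≤ ε := by
  obtain ⟨N₀, hN₀⟩ := Abar_cauchy L m₀ h₁ h₂ ε hε
  have h3 : ∀ N, (avg fun u : (m : Finset.Ico m₀ N) → Fin (Q m) =>
          AV L (Finset.Ico m₀ N) ∅ (kp _ 0 u) f₁ f₂) = Abar L m₀ f₁ f₂ N := by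
    intro N
    simp_rw [AV_empty]
    exact avg_kp_eq_EE (Finset.Ico m₀ N) (fun κ => AA (RL L (Finset.Ico m₀ N) κ) f₁ f₂)
  refine ⟨N₀, ?_⟩
  intro N hN N' hN'
  rw [h3, h3]
  exact hN₀ N hN N' hN'

end link

end Pool.TC.FWx
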